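import Mathlib

/-! Polyhedra with real rows: vertices, normal cones, edges, elementary vectors. -/

namespace Pool.Agent.Simplex.CI

open Matrix

variable {n M : ℕ}

/-- the polyhedron -/
def Pol (a : Fin M → Fin n → ℝ) (b : Fin M → ℝ) : Set (Fin n → ℝ) :=
  {x | ∀ l, a l ⬝ᵥ x ≤ b l}

/-- vertices: feasible, and the tight rows have full rank -/
def Vtx (a : Fin M → Fin n → ℝ) (b : Fin M → ℝ) (x : Fin n → ℝ) : Prop :=
  x ∈ Pol a b ∧ ∀ q : Fin n → ℝ, (∀ l, a l ⬝ᵥ x = b l → a l ⬝ᵥ q = 0) → q = 0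

/-- normal cones -/
def NC (a : Fin M → Fin n → ℝ) (b : Fin M → ℝ) (x : Fin n → ℝ) : Set (Fin n → ℝ) :=
  {y | ∀ z ∈ Pol a b, y ⬝ᵥ z ≤ y ⬝ᵥ x}

/-- elementary vectors of the system of rows -/
def Elem (a : Fin M → Fin n → ℝ) (z : Fin n → ℝ) : Prop :=
  z ≠ 0 ∧ ∀ q : Fin n → ℝ, (∀ l, a l ⬝ᵥ z = 0 → a l ⬝ᵥ q = 0) → ∃ t : ℝ, q = t • z

/-- elementary vectors of the system of the rows which are tight at `v` -/
def ElemAt (a : Fin M → Fin n → ℝ) (b : Fin M → ℝ) (v z : Fin n → ℝ) : Prop :=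
  z ≠ 0 ∧ ∀ q : Fin n → ℝ, (∀ l, a l ⬝ᵥ v = b l → a l ⬝ᵥ z = 0 → a l ⬝ᵥ q = 0) →
    ∃ t : ℝ, q = t • z

/-- local imbalance at most `K`: along elementary vectors at a vertex the change of every row is at
most `K` times the non-zero change of a tight row -/
def Imb (a : Fin M → Fin n → ℝ) (b : Fin M → ℝ) (K : ℝ) : Prop :=
  ∀ v, Vtx a b v → ∀ z, ElemAt a b v z → ∀ l i, a i ⬝ᵥ v = b i → a i ⬝ᵥ z ≠ 0 →
    |a l ⬝ᵥ z| ≤ K * |a i ⬝ᵥ z|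

theorem ElemAt.elem {a : Fin M → Fin n → ℝ} {b : Fin M → ℝ} {v z : Fin n → ℝ}
    (h : ElemAt a b v z) : Elem a z :=
  ⟨h.1, fun q hq => h.2 q fun l _ h0 => hq l h0⟩

/-- an edge from `v` to `v'` -/
structure Edg (a : Fin M → Fin n → ℝ) (b : Fin M → ℝ) (v v' : Fin n → ℝ) : Prop where
  vtx : Vtx a b v
  vtx' : Vtx a b v'
  ne : v' - v ≠ 0
  one : ∀ q : Fin n → ℝ, (∀ l, a l ⬝ᵥ v = b l → a l ⬝ᵥ (v' - v) = 0 → a l ⬝ᵥ q = 0) →
    ∃ t : ℝ, q = t • (v' - v)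

/-- span of some rows and the objective -/
def Sp (a : Fin M → Fin n → ℝ) (c : Fin n → ℝ) (S : Finset (Fin M)) :
    Submodule ℝ (Fin n → ℝ) :=
  Submodule.span ℝ (insert c (a '' (S : Set (Fin M))))

/-- general position of the anchor -/
def Gen (a : Fin M → Fin n → ℝ) (c X : Fin n → ℝ) : Prop :=
  ∀ S : Finset (Fin M), Sp a c S ≠ ⊤ → X ∉ Sp a c S

end Pool.Agent.Simplex.CI
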