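import Mathlib
import Pool.Agent.Lib.MP_4d246d_lc.CI.Step

/-! Vertices and edges in the sense of convex geometry. -/

namespace Pool.Agent.Simplex.CI

open Matrix

variable {n M : ℕ} {a : Fin M → Fin n → ℝ} {b : Fin M → ℝ}

theorem dot_comb (y : Fin n → ℝ) (x z : Fin n → ℝ) (s t : ℝ) :
    y ⬝ᵥ (s • x + t • z) = s * (y ⬝ᵥ x) + t * (y ⬝ᵥ z) := by
  rw [dotProduct_add, dotProduct_smul, dotProduct_smul, smul_eq_mul, smul_eq_mul]

theorem comb_tight {y x z : Fin n → ℝ} {s t β : ℝ} (hs : 0 < s) (ht : 0 < t) (hst : s + t = 1)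
    (hx : y ⬝ᵥ x ≤ β) (hz : y ⬝ᵥ z ≤ β) (h : y ⬝ᵥ (s • x + t • z) = β) :
    y ⬝ᵥ x = β ∧ y ⬝ᵥ z = β := by
  rw [dot_comb] at h
  have h1 : s * (β - y ⬝ᵥ x) + t * (β - y ⬝ᵥ z) = 0 := by
    have : s * β + t * β = β := by rw [← add_mul, hst, one_mul]
    linarith
  have h2 : 0 ≤ s * (β - y ⬝ᵥ x) := mul_nonneg hs.le (by linarith)
  have h3 : 0 ≤ t * (β - y ⬝ᵥ z) := mul_nonneg ht.le (by linarith)
  have h4 : s * (β - y ⬝ᵥ x) = 0 := by linarith
  have h5 : t * (β - y ⬝ᵥ z) = 0 := by linarith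
  have h6 := (mul_eq_zero.1 h4).resolve_left hs.ne'
  have h7 := (mul_eq_zero.1 h5).resolve_left ht.ne'
  constructor <;> linarith

/-- vertices are extreme points -/
theorem ext_of_vtx {v : Fin n → ℝ} (hv : Vtx a b v) : v ∈ Set.extremePoints ℝ (Pol a b) := by
  refine ⟨hv.1, ?_⟩
  rintro x hx z hz ⟨s, t, hs, ht, hst, rfl⟩
  have h1 : x - z = 0 := hv.2 _ fun l hl => by
    obtain ⟨h2, h3⟩ := comb_tight hs ht hst (hx l) (hz l) hl
    rw [dotProduct_sub, h2, h3, sub_self]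
  have h2 : x = z := sub_eq_zero.1 h1
  subst h2
  rw [← add_smul, hst, one_smul]

/-- extreme points are vertices -/
theorem vtx_of_ext {v : Fin n → ℝ} (hv : v ∈ Set.extremePoints ℝ (Pol a b)) : Vtx a b v := by
  refine ⟨hv.1, fun q hq => ?_⟩
  obtain ⟨e1, he1, h3⟩ := short_step hv.1 (z := q) fun l hl => (hq l hl).le
  obtain ⟨e2, he2, h4⟩ := short_step hv.1 (z := -q) fun l hl => by
    rw [dotProduct_neg, hq l hl, neg_zero]
  have h7 : v ∈ openSegment ℝ (v + e1 • q) (v + e2 • (-q)) := by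
    refine ⟨e2 / (e1 + e2), e1 / (e1 + e2), by positivity, by positivity, ?_, ?_⟩
    · rw [← add_div, add_comm e2, div_self (by positivity)]
    · ext j
      simp only [Pi.add_apply, Pi.smul_apply, smul_eq_mul, Pi.neg_apply]
      field_simp
      ring
  have h8 := hv.2 h3 h4 h7
  have h9 : e1 • q = 0 := by
    have : v + e1 • q = v + 0 := by rw [add_zero]; exact h8
    exact add_left_cancel this
  exact (smul_eq_zero.1 h9).resolve_left he1.ne'

/-- faces are extreme -/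
theorem face_extreme (T : Set (Fin M)) :
    IsExtreme ℝ (Pol a b) {x | x ∈ Pol a b ∧ ∀ l ∈ T, a l ⬝ᵥ x = b l} := by
  refine ⟨fun x hx => hx.1, ?_⟩
  rintro x hx z hz w hw ⟨s, t, hs, ht, hst, rfl⟩
  exact ⟨hx, fun l hl => (comb_tight hs ht hst (hx l) (hz l) (hw.2 l hl)).1⟩

theorem Edg.extreme {v v' : Fin n → ℝ} (hE : Edg a b v v') :
    IsExtreme ℝ (Pol a b) (segment ℝ v v') := by
  set h := v' - v with hh
  have hv' : v' = v + h := by rw [hh]; abel
  have e : segment ℝ v v' = {x | x ∈ Pol a b ∧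
      ∀ l ∈ {l | a l ⬝ᵥ v = b l ∧ a l ⬝ᵥ h = 0}, a l ⬝ᵥ x = b l} := by
    have hrow : ∀ l (r : ℝ), a l ⬝ᵥ (v + r • h) = a l ⬝ᵥ v + r * (a l ⬝ᵥ h) := by
      intro l r
      rw [dotProduct_add, dotProduct_smul, smul_eq_mul]
    obtain ⟨i, hi1, hi⟩ := exists_left hE.vtx hE.vtx'.1 hE.ne
    apply Set.Subset.antisymm
    · intro x hx
      rw [segment_eq_image'] at hx
      obtain ⟨θ, ⟨h0, h1⟩, rfl⟩ := hx
      refine ⟨fun l => ?_, fun l hl => ?_⟩
      · have h2 := hE.vtx.1 l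
        have h3 := hE.vtx'.1 l
        have h4 : a l ⬝ᵥ v' = a l ⬝ᵥ v + a l ⬝ᵥ h := by
          rw [← dotProduct_add, ← hv']
        rw [h4] at h3
        show a l ⬝ᵥ (v + θ • h) ≤ b l
        rw [hrow]
        nlinarith
      · show a l ⬝ᵥ (v + θ • h) = b l
        rw [hrow, hl.1, hl.2]; simp
    · rintro x ⟨hx, hxT⟩
      obtain ⟨r, hr⟩ := hE.one (x - v) fun l hl h0 => by
        rw [dotProduct_sub, hxT l ⟨hl, h0⟩, hl, sub_self]
      have hx' : x = v + r • h := by rw [← hr]; abel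
      have hr0 : 0 ≤ r := by
        have h1 := hx i
        rw [hx', hrow, hi1] at h1
        by_contra hlt
        push Not at hlt
        have := mul_pos_of_neg_of_neg hlt hi
        linarith
      obtain ⟨l, hl, hl0⟩ : ∃ l, a l ⬝ᵥ v' = b l ∧ a l ⬝ᵥ h ≠ 0 := by
        by_contra hno
        push Not at hno
        exact hE.ne (hE.vtx'.2 _ hno)
      have h4 : a l ⬝ᵥ v' = a l ⬝ᵥ v + a l ⬝ᵥ h := by
        rw [← dotProduct_add, ← hv']
      have hlpos : 0 < a l ⬝ᵥ h := by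
        rcases lt_or_gt_of_ne hl0 with h1 | h1
        · exfalso
          rw [h4] at hl
          have := hE.vtx.1 l
          linarith
        · exact h1
      have hrt : r ≤ 1 := by
        have h1 := hx l
        rw [hx', hrow] at h1
        rw [h4] at hl
        by_contra hlt
        push Not at hlt
        have := mul_lt_mul_of_pos_right hlt hlpos
        linarith
      rw [segment_eq_image']
      exact ⟨r, ⟨hr0, hrt⟩, hx'.symm⟩
  rw [e]
  exact face_extreme _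

/-- unbounded edges -/
theorem ray_extreme {c v z : Fin n → ℝ} (hv : Vtx a b v) (hc : 0 < c ⬝ᵥ z)
    (hz : ∀ l, a l ⬝ᵥ z ≤ 0)
    (hone : ∀ q : Fin n → ℝ, (∀ l, a l ⬝ᵥ v = b l → a l ⬝ᵥ z = 0 → a l ⬝ᵥ q = 0) →
        ∃ t : ℝ, q = t • z) :
    IsExtreme ℝ (Pol a b) {w | ∃ s : ℝ, 0 ≤ s ∧ w = v + s • z} := by
  have e : {w | ∃ s : ℝ, 0 ≤ s ∧ w = v + s • z} = {x | x ∈ Pol a b ∧
      ∀ l ∈ {l | a l ⬝ᵥ v = b l ∧ a l ⬝ᵥ z = 0}, a l ⬝ᵥ x = b l} := by
    have hrow : ∀ l (r : ℝ), a l ⬝ᵥ (v + r • z) = a l ⬝ᵥ v + r * (a l ⬝ᵥ z) := by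
      intro l r
      rw [dotProduct_add, dotProduct_smul, smul_eq_mul]
    have hz0 : z ≠ 0 := by
      rintro rfl
      rw [dotProduct_zero] at hc
      exact lt_irrefl _ hc
    apply Set.Subset.antisymm
    · rintro w ⟨s, hs, rfl⟩
      refine ⟨fun l => ?_, fun l hl => ?_⟩
      · rw [hrow]
        have h1 := hv.1 l
        have h2 := mul_nonneg hs (neg_nonneg.2 (hz l))
        linarith
      · rw [hrow, hl.1, hl.2, mul_zero, add_zero]
    · rintro x ⟨hx, hxT⟩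
      obtain ⟨r, hr⟩ := hone (x - v) fun l hl h0 => by
        rw [dotProduct_sub, hxT l ⟨hl, h0⟩, hl, sub_self]
      have hx' : x = v + r • z := by rw [← hr]; abel
      refine ⟨r, ?_, hx'⟩
      obtain ⟨l, hl, hl0⟩ : ∃ l, a l ⬝ᵥ v = b l ∧ a l ⬝ᵥ z ≠ 0 := by
        by_contra hno
        push Not at hno
        exact hz0 (hv.2 _ hno)
      have hneg : a l ⬝ᵥ z < 0 := lt_of_le_of_ne (hz l) hl0
      have h1 := hx l
      rw [hx', hrow, hl] at h1
      by_contra hlt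
      push Not at hlt
      have := mul_pos_of_neg_of_neg hlt hneg
      linarith
  rw [e]
  exact face_extreme _

end Pool.Agent.Simplex.CI
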