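import Mathlib
import Pool.Agent.Lib.MP_4d246d_lc.CI.Defs

/-! Bases of tight rows and the coordinates of the rows in a basis. -/

namespace Pool.Agent.Simplex.CI

open Matrix

variable {n M : ℕ}

/-- vectors with trivial orthogonal complement span -/
theorem span_top_of_orth (s : Set (Fin n → ℝ))
    (hs : ∀ q : Fin n → ℝ, (∀ v ∈ s, v ⬝ᵥ q = 0) → q = 0) : Submodule.span ℝ s = ⊤ := by
  by_contra hne
  have hlt : Submodule.span ℝ s < ⊤ := lt_top_iff_ne_top.mpr hne
  obtain ⟨φ, hφ, hle⟩ := Submodule.exists_le_ker_of_lt_top _ hlt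
  have hval : ∀ v : Fin n → ℝ, φ v = v ⬝ᵥ (fun i => φ (Pi.single i 1)) := by
    intro v
    conv_lhs => rw [← Finset.univ_sum_single v]
    rw [map_sum]
    simp only [dotProduct]
    refine Finset.sum_congr rfl fun i _ => ?_
    have : (Pi.single i (v i) : Fin n → ℝ) = v i • (Pi.single i 1) := by
      rw [← Pi.single_smul]
      simp
    rw [this, map_smul, smul_eq_mul]
  have h0 := hs (fun i => φ (Pi.single i 1)) (by
    intro v hv
    rw [← hval]
    exact hle (Submodule.subset_span hv))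
  apply hφ
  ext i
  simpa using congrFun h0 i

/-- a vertex has a basis of tight rows -/
theorem exists_basis (a : Fin M → Fin n → ℝ) (T : Set (Fin M))
    (hT : ∀ q : Fin n → ℝ, (∀ l ∈ T, a l ⬝ᵥ q = 0) → q = 0) :
    ∃ f : Fin n → Fin M, (∀ k, f k ∈ T) ∧ LinearIndependent ℝ (fun k => a (f k)) := by
  classical
  set s : Set (Fin n → ℝ) := a '' T with hs
  have hspan : Submodule.span ℝ s = ⊤ := span_top_of_orth s (by
    intro q hq
    exact hT q fun l hl => hq _ ⟨l, hl, rfl⟩)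
  obtain ⟨b, hbs, hbspan, hbli⟩ := exists_linearIndependent ℝ s
  rw [hspan] at hbspan
  set B : Module.Basis b ℝ (Fin n → ℝ) := Module.Basis.mk hbli (by
    rw [Subtype.range_coe, hbspan]) with hB
  have hfin : Fintype b := FiniteDimensional.fintypeBasisIndex B
  have hcard : Fintype.card b = n := by
    have := Module.finrank_eq_card_basis B
    rw [Module.finrank_fin_fun] at this
    exact this.symm
  let e : Fin n ≃ b := (Fintype.equivFinOfCardEq hcard).symm
  have hex : ∀ k, ∃ l ∈ T, a l = (e k : Fin n → ℝ) := by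
    intro k
    obtain ⟨l, hl, hl2⟩ := hbs (e k).2
    exact ⟨l, hl, hl2⟩
  choose f hf1 hf2 using hex
  refine ⟨f, hf1, ?_⟩
  have : (fun k => a (f k)) = (fun x : b => (x : Fin n → ℝ)) ∘ e := by
    funext k
    exact hf2 k
  rw [this]
  exact hbli.comp _ e.injective

theorem li_inj {a : Fin M → Fin n → ℝ} {f : Fin n → Fin M}
    (hf : LinearIndependent ℝ (fun k => a (f k))) : Function.Injective f := by
  intro x y hxy
  apply hf.injective
  show a (f x) = a (f y)
  rw [hxy]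

theorem det_unit {a : Fin M → Fin n → ℝ} {f : Fin n → Fin M}
    (hf : LinearIndependent ℝ (fun k => a (f k))) :
    IsUnit (Matrix.of fun k => a (f k)) :=
  Matrix.linearIndependent_rows_iff_isUnit.mp hf

/-- the rows of a basis separate points -/
theorem basis_inj {a : Fin M → Fin n → ℝ} {f : Fin n → Fin M}
    (hf : LinearIndependent ℝ (fun k => a (f k))) {z : Fin n → ℝ}
    (hz : ∀ k, a (f k) ⬝ᵥ z = 0) : z = 0 := by
  have hinj : Function.Injective (Matrix.of fun k => a (f k)).mulVec :=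
    Matrix.mulVec_injective_iff_isUnit.2 (det_unit hf)
  apply hinj
  rw [Matrix.mulVec_zero]
  funext k
  exact hz k

/-- every vector is a combination of the rows of a basis -/
theorem basis_surj {a : Fin M → Fin n → ℝ} {f : Fin n → Fin M}
    (hf : LinearIndependent ℝ (fun k => a (f k))) (y : Fin n → ℝ) :
    ∃ α : Fin n → ℝ, ∑ k, α k • a (f k) = y := by
  have hs := Matrix.vecMul_surjective_iff_isUnit.2 (det_unit hf)
  obtain ⟨x, hx⟩ := hs y
  refine ⟨x, ?_⟩
  rw [← hx]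
  ext j
  simp [Matrix.vecMul, dotProduct, Finset.sum_apply]

/-- dual basis vectors are elementary -/
theorem dual_elem {a : Fin M → Fin n → ℝ} {b : Fin M → ℝ} {v : Fin n → ℝ} {f : Fin n → Fin M}
    (ht : ∀ k, a (f k) ⬝ᵥ v = b (f k)) (hf : LinearIndependent ℝ (fun k => a (f k)))
    {z : Fin n → ℝ} {k : Fin n} (hrow : ∀ j, a (f j) ⬝ᵥ z = (Pi.single k 1 : Fin n → ℝ) j) :
    ElemAt a b v z := by
  have hk : a (f k) ⬝ᵥ z = 1 := by rw [hrow]; simp
  refine ⟨?_, fun q hq => ⟨a (f k) ⬝ᵥ q, ?_⟩⟩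
  · rintro rfl
    rw [dotProduct_zero] at hk
    exact zero_ne_one hk
  · rw [← sub_eq_zero]
    apply basis_inj hf
    intro j
    rw [dotProduct_sub, dotProduct_smul, smul_eq_mul]
    by_cases hj : j = k
    · subst hj; rw [hk, mul_one, sub_self]
    · have h0 : a (f j) ⬝ᵥ z = 0 := by rw [hrow]; simp [hj]
      rw [h0, mul_zero, sub_zero]
      exact hq _ (ht j) h0

theorem dual_exists {a : Fin M → Fin n → ℝ} {f : Fin n → Fin M}
    (hf : LinearIndependent ℝ (fun k => a (f k))) (k : Fin n) :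
    ∃ z : Fin n → ℝ, ∀ j, a (f j) ⬝ᵥ z = (Pi.single k 1 : Fin n → ℝ) j := by
  have hsurj : Function.Surjective (Matrix.of fun k => a (f k)).mulVec :=
    Matrix.mulVec_surjective_iff_isUnit.2 (det_unit hf)
  obtain ⟨z, hz⟩ := hsurj (Pi.single k 1)
  exact ⟨z, fun j => congrFun hz j⟩

theorem cramer_imb (a : Fin M → Fin n → ℝ) (b : Fin M → ℝ) (K : ℝ) (hI : Imb a b K)
    {v : Fin n → ℝ} (hv : Vtx a b v) (f : Fin n → Fin M)
    (ht : ∀ k, a (f k) ⬝ᵥ v = b (f k)) (hf : LinearIndependent ℝ (fun k => a (f k))) :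
    ∃ α : Fin M → Fin n → ℝ, (∀ i, ∑ k, α i k • a (f k) = a i) ∧
      (∀ i k, |α i k| ≤ K) ∧ ∀ k, ∃ z, Elem a z ∧ ∀ i, α i k = a i ⬝ᵥ z := by
  choose α hα using fun i => basis_surj hf (a i)
  suffices hmain : ∀ k, ∃ z, Elem a z ∧ (∀ i, α i k = a i ⬝ᵥ z) ∧ ∀ i, |α i k| ≤ K by
    refine ⟨α, hα, fun i k => ?_, fun k => ?_⟩
    · obtain ⟨z, -, -, h⟩ := hmain k
      exact h i
    · obtain ⟨z, h1, h2, -⟩ := hmain k
      exact ⟨z, h1, h2⟩
  intro k
  -- the dual basis vector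
  obtain ⟨z, hrow⟩ := dual_exists hf k
  have hk : a (f k) ⬝ᵥ z = 1 := by rw [hrow]; simp
  have hE : ElemAt a b v z := dual_elem ht hf hrow
  have h1 : ∀ i, α i k = a i ⬝ᵥ z := by
    intro i
    rw [← hα i, sum_dotProduct]
    rw [Finset.sum_eq_single k]
    · rw [smul_dotProduct, hk, smul_eq_mul, mul_one]
    · intro j _ hj
      rw [smul_dotProduct, hrow]
      simp [hj]
    · intro h; exact absurd (Finset.mem_univ k) h
  refine ⟨z, hE.elem, h1, fun i => ?_⟩
  have h2 := hI v hv z hE i (f k) (ht k) (by rw [hk]; exact one_ne_zero)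
  rw [← h1, hk, abs_one, mul_one] at h2
  exact h2

theorem one_le_imb (hn : 0 < n) (a : Fin M → Fin n → ℝ) (b : Fin M → ℝ) (K : ℝ)
    (hI : Imb a b K) {v : Fin n → ℝ} (hv : Vtx a b v) (f : Fin n → Fin M)
    (ht : ∀ k, a (f k) ⬝ᵥ v = b (f k)) (hf : LinearIndependent ℝ (fun k => a (f k))) :
    1 ≤ K := by
  set k : Fin n := ⟨0, hn⟩
  obtain ⟨z, hrow⟩ := dual_exists hf k
  have hk : a (f k) ⬝ᵥ z = 1 := by rw [hrow]; simp
  have h2 := hI v hv z (dual_elem ht hf hrow) (f k) (f k) (ht k) (by rw [hk]; exact one_ne_zero)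
  rw [hk, abs_one, mul_one] at h2
  exact h2

/-- bounded coefficients over the tight bases give a bounded local imbalance -/
theorem imb_of_coeff {a : Fin M → Fin n → ℝ} {b : Fin M → ℝ} {K : ℝ}
    (h : ∀ v, Vtx a b v → ∀ r : Fin n → Fin M, LinearIndependent ℝ (fun k => a (r k)) →
      (∀ k, a (r k) ⬝ᵥ v = b (r k)) → ∀ l (α : Fin n → ℝ), a l = ∑ k, α k • a (r k) →
        ∀ k, |α k| ≤ K) : Imb a b K := by
  intro v hv z hz l i hi hiz
  obtain ⟨r, hr, hli⟩ := exists_basis a {l | a l ⬝ᵥ v = b l ∧ (l = i ∨ a l ⬝ᵥ z = 0)} (by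
    intro q hq
    obtain ⟨t, rfl⟩ := hz.2 q fun l h1 h2 => hq l ⟨h1, Or.inr h2⟩
    have h1 := hq i ⟨hi, Or.inl rfl⟩
    rw [dotProduct_smul, smul_eq_mul] at h1
    rw [(mul_eq_zero.1 h1).resolve_right hiz, zero_smul])
  obtain ⟨k₀, hk₀⟩ : ∃ k, a (r k) ⬝ᵥ z ≠ 0 := by
    by_contra hno
    push Not at hno
    exact hz.1 (basis_inj hli hno)
  have hrk : r k₀ = i := (hr k₀).2.resolve_right hk₀
  have hother : ∀ k, k ≠ k₀ → a (r k) ⬝ᵥ z = 0 := by
    intro k hk
    refine (hr k).2.resolve_left fun h1 => hk (li_inj hli ?_)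
    rw [h1, hrk]
  obtain ⟨α, hα⟩ := basis_surj hli (a l)
  have h1 := h v hv r hli (fun k => (hr k).1) l α hα.symm k₀
  have h2 : a l ⬝ᵥ z = α k₀ * (a i ⬝ᵥ z) := by
    rw [← hα, sum_dotProduct, Finset.sum_eq_single k₀]
    · rw [smul_dotProduct, hrk, smul_eq_mul]
    · intro k _ hk
      rw [smul_dotProduct, hother k hk, smul_zero]
    · intro h; exact absurd (Finset.mem_univ _) h
  rw [h2, abs_mul]
  exact mul_le_mul_of_nonneg_right h1 (abs_nonneg _)

end Pool.Agent.Simplex.CI
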