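import Mathlib

/-!
Linear programs `max c x`, `A x ≤ b` with real data, their vertices, edges and feasible tableaux,
and the runs of the shadow vertex rule with a given auxiliary objective.
-/

namespace Pool.Agent.Simplex.Tableau

open Matrix

/-- Data of a linear program with `m` inequalities and `n` variables: maximise `c x` subject to
`A x ≤ b`. Bounds such as `x ≥ 0` are rows of `A`. -/
structure LP (m n : ℕ) where
  /-- the constraint matrix -/
  A : Matrix (Fin m) (Fin n) ℝ
  /-- the right hand side -/
  b : Fin m → ℝ
  /-- the objective -/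
  c : Fin n → ℝ

namespace LP

variable {m n : ℕ} (P : LP m n)

/-- The left hand side of constraint `i` at `x`. -/
def row (i : Fin m) (x : Fin n → ℝ) : ℝ := ∑ j, P.A i j * x j

/-- The feasible polyhedron `{x | A x ≤ b}`. -/
def feasible : Set (Fin n → ℝ) := {x | ∀ i, P.row i x ≤ P.b i}

/-- The objective function. -/
def obj (x : Fin n → ℝ) : ℝ := ∑ j, P.c j * x j

/-- `x` is a vertex (extreme point) of the feasible polyhedron. -/
def Vertex (x : Fin n → ℝ) : Prop := x ∈ Set.extremePoints ℝ P.feasible

/-- `x` and `y` are the two ends of an edge of the feasible polyhedron. -/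
def Edge (x y : Fin n → ℝ) : Prop :=
  P.Vertex x ∧ P.Vertex y ∧ x ≠ y ∧ IsExtreme ℝ P.feasible (segment ℝ x y)

/-- The edge from `x` to `y` strictly increases the objective: `x → y` is a simplex pivot. -/
def Improving (x y : Fin n → ℝ) : Prop := P.Edge x y ∧ P.obj x < P.obj y

/-- `x` is an optimal feasible point. -/
def Optimal (x : Fin n → ℝ) : Prop := x ∈ P.feasible ∧ ∀ y ∈ P.feasible, P.obj y ≤ P.obj x

/-- The vertex `x` has an unbounded edge, with direction `z`, along which the objective
increases. -/
def Unbounded (x : Fin n → ℝ) : Prop :=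
  P.Vertex x ∧ ∃ z : Fin n → ℝ, 0 < P.obj z ∧
    IsExtreme ℝ P.feasible {w | ∃ s : ℝ, 0 ≤ s ∧ w = x + s • z}

/-- The simplex method stops at the vertex `x`. -/
def Final (x : Fin n → ℝ) : Prop := P.Vertex x ∧ (P.Optimal x ∨ P.Unbounded x)

/-- `r` lists `n` linearly independent constraints which are tight at `x`. -/
def TightBasis (x : Fin n → ℝ) (r : Fin n → Fin m) : Prop :=
  LinearIndependent ℝ (fun k => P.A (r k)) ∧ ∀ k, P.row (r k) x = P.b (r k)

/-- The entries of all feasible tableaux are at most `K` in absolute value, when the slack of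
constraint `l` is measured in units of `1 / wt l`: if `r` is a basis of constraints tight at a vertex
and `α` are the coefficients of the row of a constraint `l` over the rows of `r` (these are the
coefficients of the slack of `l` in the tableau with the non-basic slacks `r`), then
`wt l * |α k| ≤ K * wt (r k)`. -/
def TableauLE (wt : Fin m → ℝ) (K : ℕ) : Prop :=
  ∀ x, P.Vertex x → ∀ r, P.TightBasis x r → ∀ (l : Fin m) (α : Fin n → ℝ),
    (∀ j, P.A l j = ∑ k, α k * P.A (r k) j) → ∀ k, wt l * |α k| ≤ K * wt (r k)

/-- The local `δ`-distance property: for every basis `r` of constraints tight at a vertex, each row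
of `r` has distance at least `δ` times its length from the span of the other rows of `r`. -/
def DistanceGE (δ : ℝ) : Prop :=
  ∀ x, P.Vertex x → ∀ r, P.TightBasis x r → ∀ (k : Fin n) (β : Fin n → ℝ), β k = 1 →
    δ ^ 2 * ∑ j, P.A (r k) j ^ 2 ≤ ∑ j, (∑ i, β i * P.A (r i) j) ^ 2

/-- The auxiliary objective with coefficients `κ` over the weighted constraints `r`. -/
def auxiliary (wt : Fin m → ℝ) (r : Fin n → Fin m) (κ : Fin n → ℝ) : Fin n → ℝ :=
  fun j => ∑ k, κ k * (wt (r k) * P.A (r k) j)

/-- `x` maximises `w` plus `s` times the objective over the feasible polyhedron. -/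
def Shadow (w : Fin n → ℝ) (s : ℝ) (x : Fin n → ℝ) : Prop :=
  x ∈ P.feasible ∧ ∀ y ∈ P.feasible,
    ∑ j, w j * y j + s * P.obj y ≤ ∑ j, w j * x j + s * P.obj x

/-- `p 0, …, p k` are visited by the simplex method with the shadow vertex rule for the auxiliary
objective `w`: each step moves along an edge which strictly increases the objective, both ends of
the edge maximise `w + s c` for some `s ≥ 0`, and no step is made from a vertex where the method
stops. -/
structure ShadowRun (w : Fin n → ℝ) (k : ℕ) (p : ℕ → Fin n → ℝ) : Prop where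
  /-- each step is a pivot -/
  pivot : ∀ i < k, P.Improving (p i) (p (i + 1))
  /-- each pivot follows the shadow -/
  shadow : ∀ i < k, ∃ s : ℝ, 0 ≤ s ∧ P.Shadow w s (p i) ∧ P.Shadow w s (p (i + 1))
  /-- the method has not stopped before -/
  go : ∀ i < k, ¬ P.Final (p i)

end LP

/-- The non-zero `n × n` subdeterminants of `A` (`n` the number of columns) differ at most by the
factor `K` in absolute value. -/
def MinorRatioLE {m n : ℕ} (A : Matrix (Fin m) (Fin n) ℝ) (K : ℕ) : Prop :=
  ∀ r r' : Fin n → Fin m, (A.submatrix r' id).det ≠ 0 →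
    |(A.submatrix r id).det| ≤ K * |(A.submatrix r' id).det|

/-- Each row of `A` has at most two non-zero entries, which are `1` or `-1`. -/
def TwoUnit {m n : ℕ} (A : Matrix (Fin m) (Fin n) ℝ) : Prop :=
  ∀ i, (∀ j, A i j = 0 ∨ A i j = 1 ∨ A i j = -1) ∧ {j | A i j ≠ 0}.ncard ≤ 2

/-- The bound `220 n² min(n, m + 1 - n)² K² size(K)`, where `size` is the number of binary
digits. -/
def pivotBound (m n K : ℕ) : ℕ :=
  220 * n ^ 2 * (min n (m + 1 - n)) ^ 2 * K ^ 2 * Nat.size K

end Pool.Agent.Simplex.Tableau
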