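import Mathlib
import Pool.Agent.Lib.MP_4d246d_lc.CI.Step
import Pool.Agent.Lib.MP_4d246d_lc.CI.Basis

/-! Normal cones and anchors in general position. -/

namespace Pool.Agent.Simplex.CI

open Matrix MeasureTheory

variable {n M : ℕ}

theorem vtx_finite (a : Fin M → Fin n → ℝ) (b : Fin M → ℝ) : {v | Vtx a b v}.Finite := by
  refine Set.Finite.of_finite_image (f := fun v => {l | a l ⬝ᵥ v = b l}) (Set.toFinite _) ?_
  intro v hv w hw h
  change Vtx a b v at hv
  change Vtx a b w at hw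
  have : v - w = 0 := by
    apply hv.2
    intro l hl
    have hl' : a l ⬝ᵥ w = b l := by
      have : l ∈ {l | a l ⬝ᵥ v = b l} := hl
      rw [show {l | a l ⬝ᵥ v = b l} = {l | a l ⬝ᵥ w = b l} from h] at this
      exact this
    rw [dotProduct_sub, hl, hl', sub_self]
  exact sub_eq_zero.1 this

theorem row_mem_NC {a : Fin M → Fin n → ℝ} {b : Fin M → ℝ} {v : Fin n → ℝ} {l : Fin M}
    (hl : a l ⬝ᵥ v = b l) : a l ∈ NC a b v := by
  intro z hz
  rw [hl]; exact hz l

theorem NC_add {a : Fin M → Fin n → ℝ} {b : Fin M → ℝ} {v x y : Fin n → ℝ}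
    (hx : x ∈ NC a b v) (hy : y ∈ NC a b v) : x + y ∈ NC a b v := by
  intro z hz
  rw [add_dotProduct, add_dotProduct]
  exact add_le_add (hx z hz) (hy z hz)

theorem NC_smul {a : Fin M → Fin n → ℝ} {b : Fin M → ℝ} {v x : Fin n → ℝ} {t : ℝ} (ht : 0 ≤ t)
    (hx : x ∈ NC a b v) : t • x ∈ NC a b v := by
  intro z hz
  rw [smul_dotProduct, smul_dotProduct]
  exact mul_le_mul_of_nonneg_left (hx z hz) ht

theorem NC_closed (a : Fin M → Fin n → ℝ) (b : Fin M → ℝ) (v : Fin n → ℝ) :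
    IsClosed (NC a b v) := by
  have : NC a b v = ⋂ z ∈ Pol a b, {y | y ⬝ᵥ z ≤ y ⬝ᵥ v} := by
    ext y; simp [NC]
  rw [this]
  refine isClosed_biInter fun z _ => isClosed_le ?_ ?_
  · exact Continuous.dotProduct continuous_id continuous_const
  · exact Continuous.dotProduct continuous_id continuous_const

/-- the anchor map -/
noncomputable def XL (a : Fin M → Fin n → ℝ) (f : Fin n → Fin M) :
    (Fin n → ℝ) →ₗ[ℝ] (Fin n → ℝ) := Fintype.linearCombination ℝ (fun k => a (f k))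

theorem XL_apply (a : Fin M → Fin n → ℝ) (f : Fin n → Fin M) (κ : Fin n → ℝ) :
    XL a f κ = ∑ k, κ k • a (f k) := Fintype.linearCombination_apply ..

theorem XL_surj {a : Fin M → Fin n → ℝ} {f : Fin n → Fin M}
    (hf : LinearIndependent ℝ (fun k => a (f k))) : Function.Surjective (XL a f) := by
  intro y
  obtain ⟨x, hx⟩ := basis_surj hf y
  exact ⟨x, by rw [XL_apply, hx]⟩

/-- bad anchors -/
def Zs (a : Fin M → Fin n → ℝ) (c : Fin n → ℝ) (f : Fin n → Fin M) : Set (Fin n → ℝ) :=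
  {κ | ¬ Gen a c (XL a f κ)}

theorem Zs_eq (a : Fin M → Fin n → ℝ) (c : Fin n → ℝ) (f : Fin n → Fin M) :
    Zs a c f = ⋃ S : {S : Finset (Fin M) // Sp a c S ≠ ⊤}, ((Sp a c S.1).comap (XL a f) : Set _) := by
  ext κ
  simp [Zs, Gen]

theorem Zs_meas (a : Fin M → Fin n → ℝ) (c : Fin n → ℝ) (f : Fin n → Fin M) :
    MeasurableSet (Zs a c f) := by
  rw [Zs_eq]
  exact MeasurableSet.iUnion fun S => (Submodule.closed_of_finiteDimensional _).measurableSet

theorem Zs_null (a : Fin M → Fin n → ℝ) (c : Fin n → ℝ) (f : Fin n → Fin M)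
    (hf : LinearIndependent ℝ (fun k => a (f k))) : volume (Zs a c f) = 0 := by
  rw [Zs_eq]
  refine measure_iUnion_null fun S => Measure.addHaar_submodule _ _ ?_
  intro h
  apply S.2
  rw [eq_top_iff]
  intro y _
  obtain ⟨x, rfl⟩ := XL_surj hf y
  have : x ∈ (Sp a c S.1).comap (XL a f) := by rw [h]; trivial
  exact this

end Pool.Agent.Simplex.CI
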