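import Mathlib

/-! Dyadic sums. -/

namespace Pool.Agent.Simplex.CI

theorem tsum_half {c : ℝ} (hc : 0 ≤ c) :
    ∑' i : ℕ, ENNReal.ofReal (c / 2 ^ i) = ENNReal.ofReal (2 * c) := by
  have h : HasSum (fun i : ℕ => c / 2 ^ i) (2 * c) := by
    have h1 := hasSum_geometric_two.mul_left c
    have h2 : (fun i : ℕ => c * (1 / 2 : ℝ) ^ i) = fun i => c / 2 ^ i := by
      funext i; rw [one_div, inv_pow]; rfl
    rw [h2, mul_comm c 2] at h1
    exact h1
  rw [← ENNReal.ofReal_tsum_of_nonneg (fun i => by positivity) h.summable, h.tsum_eq]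

/-- the contribution of one row -/
theorem tsum_row (N : ℝ) (hN : 0 < N) (K : ℕ) (ω : ℝ) :
    ∑' j : ℕ, ENNReal.ofReal (if ω / 2 ^ (j + 1) ≤ N then min N (K * (ω / 2 ^ (j + 1))) else 0) ≤
      ENNReal.ofReal (N * (Nat.size K + 2)) := by
  classical
  set g : ℕ → ENNReal := fun j =>
    ENNReal.ofReal (if ω / 2 ^ (j + 1) ≤ N then min N (K * (ω / 2 ^ (j + 1))) else 0) with hg
  have hex : ∃ j : ℕ, ω / 2 ^ (j + 1) ≤ N := by
    obtain ⟨j, hj⟩ := pow_unbounded_of_one_lt (ω / N) (one_lt_two (α := ℝ))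
    refine ⟨j, ?_⟩
    rw [div_le_iff₀ (by positivity)]
    rw [div_lt_iff₀ hN] at hj
    have : (2 : ℝ) ^ j ≤ 2 ^ (j + 1) := pow_le_pow_right₀ (by norm_num) (by omega)
    nlinarith
  set j₀ := Nat.find hex with hj₀
  have hfind : ω / 2 ^ (j₀ + 1) ≤ N := Nat.find_spec hex
  have hzero : ∀ j ∈ Finset.range j₀, g j = 0 := by
    intro j hj
    have := Nat.find_min hex (Finset.mem_range.1 hj)
    simp only [hg, if_neg this, ENNReal.ofReal_zero]
  have h1 : ∑' j, g j = ∑' i, g (i + j₀) := by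
    rw [← Summable.sum_add_tsum_nat_add' (f := g) (k := j₀) ENNReal.summable,
      Finset.sum_eq_zero hzero, zero_add]
  have h2 : ∀ i, g (i + j₀) ≤ ENNReal.ofReal (min N (K * N / 2 ^ i)) := by
    intro i
    apply ENNReal.ofReal_le_ofReal
    have h3 : ω / 2 ^ (i + j₀ + 1) ≤ N / 2 ^ i := by
      have : ω / 2 ^ (i + j₀ + 1) = ω / 2 ^ (j₀ + 1) / 2 ^ i := by
        rw [div_div, ← pow_add]; congr 2; omega
      rw [this]
      exact div_le_div_of_nonneg_right hfind (by positivity)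
    have h4 : K * (ω / 2 ^ (i + j₀ + 1)) ≤ K * N / 2 ^ i := by
      rw [mul_div_assoc]
      exact mul_le_mul_of_nonneg_left h3 (Nat.cast_nonneg K)
    split_ifs
    · exact min_le_min le_rfl h4
    · exact le_min hN.le (by positivity)
  rw [h1]
  refine (ENNReal.tsum_le_tsum h2).trans ?_
  set q := Nat.size K with hq
  have hK : (K : ℝ) ≤ 2 ^ q := by
    have := (Nat.lt_size_self K).le
    exact_mod_cast this
  rw [← Summable.sum_add_tsum_nat_add' (f := fun i => ENNReal.ofReal (min N (K * N / 2 ^ i)))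
    (k := q) ENNReal.summable]
  have h5 : ∑ i ∈ Finset.range q, ENNReal.ofReal (min N (K * N / 2 ^ i)) ≤
      ENNReal.ofReal (q * N) := by
    calc ∑ i ∈ Finset.range q, ENNReal.ofReal (min N (K * N / 2 ^ i))
        ≤ ∑ _i ∈ Finset.range q, ENNReal.ofReal N :=
          Finset.sum_le_sum fun i _ => ENNReal.ofReal_le_ofReal (min_le_left _ _)
      _ = ENNReal.ofReal (q * N) := by
          rw [Finset.sum_const, Finset.card_range, nsmul_eq_mul,
            ENNReal.ofReal_mul (Nat.cast_nonneg q), ENNReal.ofReal_natCast]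
  have h6 : ∑' i : ℕ, ENNReal.ofReal (min N (K * N / 2 ^ (i + q))) ≤ ENNReal.ofReal (2 * N) := by
    rw [← tsum_half hN.le]
    refine ENNReal.tsum_le_tsum fun i => ENNReal.ofReal_le_ofReal ?_
    refine (min_le_right _ _).trans ?_
    rw [div_le_div_iff₀ (by positivity) (by positivity), pow_add]
    have : (0 : ℝ) ≤ N * 2 ^ i := by positivity
    nlinarith
  refine (add_le_add h5 h6).trans ?_
  rw [← ENNReal.ofReal_add (by positivity) (by positivity)]
  apply ENNReal.ofReal_le_ofReal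
  exact le_of_eq (by ring)

end Pool.Agent.Simplex.CI
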