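import Mathlib

/-!
# The measure lemma

`range_bound` bounds the total volume, weighted by the inverse speeds, of the part of a family of
walls which is crossed in a given time interval; every wall is cut into thin slices and every slice
is sheared into a small box; for a fixed slice the images are disjoint.
-/

namespace Pool.Agent.Simplex.CI

open MeasureTheory

theorem box_le {n : ℕ} (hn : 0 < n) : (1 + 4 / (n : ℝ)) ^ n ≤ 55 := by
  have hn' : (0 : ℝ) < n := by exact_mod_cast hn
  have h1 : (1 + 4 / (n : ℝ)) ^ n ≤ (Real.exp (4 / n)) ^ n := by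
    apply pow_le_pow_left₀ (by positivity)
    have := Real.add_one_le_exp (4 / (n : ℝ))
    linarith
  have h2 : (Real.exp (4 / (n : ℝ))) ^ n = Real.exp 4 := by
    rw [← Real.exp_nat_mul]
    congr 1
    field_simp
  have h3 : Real.exp 4 = Real.exp 1 ^ 4 := by
    rw [← Real.exp_nat_mul]; norm_num
  have h4 := Real.exp_one_lt_d9
  have h5 : Real.exp 1 ^ 4 ≤ 2.7182818286 ^ 4 :=
    pow_le_pow_left₀ (Real.exp_pos 1).le h4.le 4
  have h6 : (2.7182818286 : ℝ) ^ 4 ≤ 55 := by norm_num
  linarith [h1, h2 ▸ h1, h3]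

/-- one slice -/
theorem slice_bound {n : ℕ} (hn : 0 < n) {ι : Type} (S : Finset ι) (γ : Fin n → ℝ)
    (α : ι → Fin n → ℝ) (s : ι → ((Fin n → ℝ) →ₗ[ℝ] ℝ)) (u : ι → ℝ) (W : ι → Set (Fin n → ℝ))
    (A η : ℝ) (hA : 0 < A) (hη : 0 < η) (hu : ∀ e ∈ S, 0 < u e)
    (hsγ : ∀ e ∈ S, s e γ = -1) (hsα : ∀ e ∈ S, 1 / u e ≤ s e (α e))
    (hW : ∀ e ∈ S, MeasurableSet (W e)) (hbox : ∀ e ∈ S, W e ⊆ Set.Icc 0 1)
    (hγ : ∀ k, η * |γ k| ≤ 1 / n) (hα : ∀ e ∈ S, ∀ k, |α e k| ≤ A) (a : ℝ)
    (hWs : ∀ e ∈ S, ∀ κ ∈ W e, a < s e κ ∧ s e κ ≤ a + η)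
    (hdisj : ∀ e ∈ S, ∀ e' ∈ S, e ≠ e' → ∀ κ ∈ W e, ∀ κ' ∈ W e', ∀ t t' : ℝ, 0 < t →
      0 < t' → κ + s e κ • γ + t • α e ≠ κ' + s e' κ' • γ + t' • α e') :
    ∑ e ∈ S, ENNReal.ofReal (1 / u e) * volume (W e) ≤ ENNReal.ofReal (55 * (n * A) * η) := by
  have hn' : (0 : ℝ) < n := by exact_mod_cast hn
  set T : ℝ := 1 / (n * A) with hT
  have hTpos : 0 < T := by positivity
  set w : ι → Fin n → ℝ := fun e => γ + (T / η) • α e with hw
  set L : ι → ((Fin n → ℝ) →ₗ[ℝ] (Fin n → ℝ)) := fun e => LinearMap.transvection (s e) (w e)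
    with hL
  set f : ι → (Fin n → ℝ) → (Fin n → ℝ) := fun e κ => L e κ + (-(a * (T / η))) • α e with hf
  have hfa : ∀ e κ, f e κ = κ + s e κ • γ + ((s e κ - a) * (T / η)) • α e := by
    intro e κ
    show κ + s e κ • (γ + (T / η) • α e) + (-(a * (T / η))) • α e = _
    ext k
    simp only [Pi.add_apply, Pi.smul_apply, smul_eq_mul]
    ring
  have hfimg : ∀ e, f e '' W e = (fun x => x + (-(a * (T / η))) • α e) '' (L e '' W e) := by
    intro e
    rw [Set.image_image]
  have hdet : ∀ e ∈ S, LinearMap.det (L e) = (T / η) * s e (α e) := by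
    intro e he
    rw [hL]
    show LinearMap.det (LinearMap.transvection (s e) (w e)) = _
    rw [LinearMap.transvection.det, hw, map_add, map_smul, hsγ e he, smul_eq_mul]
    ring
  have hdet' : ∀ e ∈ S, (T / η) * (1 / u e) ≤ |LinearMap.det (L e)| := by
    intro e he
    rw [hdet e he]
    exact (mul_le_mul_of_nonneg_left (hsα e he) (by positivity)).trans (le_abs_self _)
  have hc : 0 < T / η := by positivity
  have hvol : ∀ e ∈ S, ENNReal.ofReal (T / η) * (ENNReal.ofReal (1 / u e) * volume (W e)) ≤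
      volume (f e '' W e) := by
    intro e he
    rw [hfimg, Set.image_add_right, measure_preimage_add_right, Measure.addHaar_image_linearMap,
      ← mul_assoc, ← ENNReal.ofReal_mul hc.le]
    exact mul_le_mul_left (ENNReal.ofReal_le_ofReal (hdet' e he)) _
  have hmeas : ∀ e ∈ S, MeasurableSet (f e '' W e) := by
    intro e he
    have hu' : IsUnit (LinearMap.det (L e)) := by
      rw [isUnit_iff_ne_zero]
      intro h0
      have h1 := hdet' e he
      rw [h0, abs_zero] at h1
      have h2 : 0 < (T / η) * (1 / u e) := mul_pos hc (one_div_pos.2 (hu e he))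
      linarith
    have hcont : Continuous (L e) := LinearMap.continuous_of_finiteDimensional _
    have hinj : Function.Injective (L e) := by
      have := LinearEquiv.injective (LinearEquiv.ofIsUnitDet
        (v := Pi.basisFun ℝ (Fin n)) (v' := Pi.basisFun ℝ (Fin n)) (f := L e)
        (by rwa [← LinearMap.det_toLin (Pi.basisFun ℝ (Fin n)) (LinearMap.toMatrix _ _ (L e)),
          Matrix.toLin_toMatrix]))
      exact this
    have hcont' : Continuous (f e) := hcont.add continuous_const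
    have hinj' : Function.Injective (f e) := fun x y hxy => hinj (add_right_cancel hxy)
    exact (hW e he).image_of_continuousOn_injOn hcont'.continuousOn hinj'.injOn
  have hpd : Set.PairwiseDisjoint (S : Set ι) (fun e => f e '' W e) := by
    intro e he e' he' hee'
    rw [Function.onFun, Set.disjoint_left]
    rintro x ⟨κ, hκ, rfl⟩ ⟨κ', hκ', h⟩
    have he : e ∈ S := he
    have he' : e' ∈ S := he'
    have h1 := hWs e he κ hκ
    have h2 := hWs e' he' κ' hκ'
    refine hdisj e he e' he' hee' κ hκ κ' hκ' ((s e κ - a) * (T / η)) ((s e' κ' - a) * (T / η))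
      (mul_pos (by linarith) (by positivity)) (mul_pos (by linarith) (by positivity)) ?_
    rw [hfa, hfa] at h
    exact h.symm
  have hsub : (⋃ e ∈ S, f e '' W e) ⊆
      Set.Icc (fun k => a * γ k - 2 / n) (fun k => a * γ k + (1 + 2 / n)) := by
    intro x hx
    simp only [Set.mem_iUnion] at hx
    obtain ⟨e, he, κ, hκ, rfl⟩ := hx
    have h1 := hWs e he κ hκ
    have hb := hbox e he hκ
    rw [Set.mem_Icc, Pi.le_def, Pi.le_def] at hb
    have key : ∀ k, |(s e κ - a) * γ k + ((s e κ - a) / η * T) * α e k| ≤ 2 / n := by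
      intro k
      refine (abs_add_le _ _).trans ?_
      rw [abs_mul, abs_mul]
      have e2 : |s e κ - a| ≤ η := by rw [abs_le]; constructor <;> linarith
      have e3 : |s e κ - a| * |γ k| ≤ 1 / n :=
        (mul_le_mul_of_nonneg_right e2 (abs_nonneg _)).trans (hγ k)
      have e4 : |(s e κ - a) / η * T| ≤ T := by
        rw [abs_mul, abs_div, abs_of_pos hη, abs_of_pos hTpos]
        have : |s e κ - a| / η ≤ 1 := by rw [div_le_one hη]; exact e2
        nlinarith
      have e5 : |(s e κ - a) / η * T| * |α e k| ≤ T * A :=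
        mul_le_mul e4 (hα e he k) (abs_nonneg _) hTpos.le
      have e6 : T * A = 1 / n := by rw [hT]; field_simp
      have e7 : (2 : ℝ) / n = 1 / n + 1 / n := by ring
      rw [e7]
      linarith
    have hk : ∀ k, f e κ k = κ k + a * γ k +
        ((s e κ - a) * γ k + ((s e κ - a) / η * T) * α e k) := by
      intro k
      rw [hfa]
      simp only [Pi.add_apply, Pi.smul_apply, smul_eq_mul]
      ring
    rw [Set.mem_Icc, Pi.le_def, Pi.le_def]
    constructor
    · intro k
      have k1 := abs_le.1 (key k)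
      have k2 := hb.1 k
      rw [hk]
      simp only [Pi.zero_apply] at k2
      linarith [k1.1]
    · intro k
      have k1 := abs_le.1 (key k)
      have k2 := hb.2 k
      rw [hk]
      simp only [Pi.one_apply] at k2
      linarith [k1.2]
  have hboxvol : volume (Set.Icc (fun k => a * γ k - 2 / (n : ℝ))
      (fun k => a * γ k + (1 + 2 / (n : ℝ)))) ≤ ENNReal.ofReal 55 := by
    rw [Real.volume_Icc_pi]
    have : ∀ k : Fin n, ENNReal.ofReal (a * γ k + (1 + 2 / (n : ℝ)) - (a * γ k - 2 / (n : ℝ)))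
        = ENNReal.ofReal (1 + 4 / (n : ℝ)) := by
      intro k; congr 1; ring
    rw [Finset.prod_congr rfl (fun k _ => this k), Finset.prod_const, Finset.card_univ,
      Fintype.card_fin, ← ENNReal.ofReal_pow (by positivity)]
    exact ENNReal.ofReal_le_ofReal (box_le hn)
  have hsum : ENNReal.ofReal (T / η) * ∑ e ∈ S, ENNReal.ofReal (1 / u e) * volume (W e) ≤
      ENNReal.ofReal 55 := by
    rw [Finset.mul_sum]
    calc ∑ e ∈ S, ENNReal.ofReal (T / η) * (ENNReal.ofReal (1 / u e) * volume (W e))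
        ≤ ∑ e ∈ S, volume (f e '' W e) := Finset.sum_le_sum hvol
      _ = volume (⋃ e ∈ S, f e '' W e) := (measure_biUnion_finset hpd hmeas).symm
      _ ≤ _ := (measure_mono hsub).trans hboxvol
  have hfin : ENNReal.ofReal (55 * (n * A) * η) =
      ENNReal.ofReal 55 / ENNReal.ofReal (T / η) := by
    rw [← ENNReal.ofReal_div_of_pos hc]
    congr 1
    rw [hT]
    field_simp
  rw [hfin, ENNReal.le_div_iff_mul_le (Or.inl (by simpa using hc)) (Or.inl ENNReal.ofReal_ne_top),
    mul_comm]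
  exact hsum

/-- a time interval -/
theorem range_bound {n : ℕ} (hn : 0 < n) {ι : Type} (S : Finset ι) (γ : Fin n → ℝ)
    (α : ι → Fin n → ℝ) (s : ι → ((Fin n → ℝ) →ₗ[ℝ] ℝ)) (u : ι → ℝ) (W : ι → Set (Fin n → ℝ))
    (A : ℝ) (hA : 0 < A) (hu : ∀ e ∈ S, 0 < u e)
    (hsγ : ∀ e ∈ S, s e γ = -1) (hsα : ∀ e ∈ S, 1 / u e ≤ s e (α e))
    (hW : ∀ e ∈ S, MeasurableSet (W e)) (hbox : ∀ e ∈ S, W e ⊆ Set.Icc 0 1)
    (hα : ∀ e ∈ S, ∀ k, |α e k| ≤ A)
    (hdisj : ∀ e ∈ S, ∀ e' ∈ S, e ≠ e' → ∀ κ ∈ W e, ∀ κ' ∈ W e', ∀ t t' : ℝ, 0 < t →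
      0 < t' → κ + s e κ • γ + t • α e ≠ κ' + s e' κ' • γ + t' • α e')
    (a b : ℝ) (hab : a < b) :
    ∑ e ∈ S, ENNReal.ofReal (1 / u e) * volume (W e ∩ {κ | a < s e κ ∧ s e κ ≤ b}) ≤
      ENNReal.ofReal (55 * (n * A) * (b - a)) := by
  have hn' : (0 : ℝ) < n := by exact_mod_cast hn
  -- choose the number of slices
  obtain ⟨J, hJ0, hJγ⟩ : ∃ J : ℕ, 0 < J ∧ ∀ k, (b - a) / J * |γ k| ≤ 1 / n := by
    set G : ℝ := ∑ k, |γ k| with hG
    have hG0 : 0 ≤ G := Finset.sum_nonneg fun k _ => abs_nonneg _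
    obtain ⟨J, hJ⟩ := exists_nat_gt ((b - a) * G * n)
    have hJ0 : 0 < J := by
      rcases Nat.eq_zero_or_pos J with rfl | h
      · exfalso
        have : 0 ≤ (b - a) * G * n := by
          have := sub_pos.2 hab
          positivity
        rw [Nat.cast_zero] at hJ
        linarith
      · exact h
    refine ⟨J, hJ0, fun k => ?_⟩
    have hJ' : (0 : ℝ) < J := by exact_mod_cast hJ0
    have h1 : |γ k| ≤ G := Finset.single_le_sum (f := fun k => |γ k|)
      (fun k _ => abs_nonneg _) (Finset.mem_univ k)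
    rw [div_mul_eq_mul_div, div_le_div_iff₀ hJ' hn', one_mul]
    have h2 : (b - a) * |γ k| * n ≤ (b - a) * G * n := by
      have := sub_pos.2 hab
      gcongr
    linarith
  have hJ' : (0 : ℝ) < J := by exact_mod_cast hJ0
  set η : ℝ := (b - a) / J with hη
  have hηpos : 0 < η := div_pos (sub_pos.2 hab) hJ'
  set V : ι → ℕ → Set (Fin n → ℝ) := fun e j =>
    W e ∩ {κ | a + j * η < s e κ ∧ s e κ ≤ a + j * η + η} with hV
  have hcover : ∀ e ∈ S, W e ∩ {κ | a < s e κ ∧ s e κ ≤ b} ⊆ ⋃ j ∈ Finset.range J, V e j := by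
    rintro e he κ ⟨hκ, h1, h2⟩
    simp only [Set.mem_iUnion, Finset.mem_range]
    have hy : 0 < (s e κ - a) / η := div_pos (by linarith) hηpos
    have hc0 : 0 < ⌈(s e κ - a) / η⌉₊ := Nat.ceil_pos.2 hy
    have hle : ⌈(s e κ - a) / η⌉₊ ≤ J := by
      apply Nat.ceil_le.2
      rw [div_le_iff₀ hηpos, hη]
      field_simp
      linarith
    refine ⟨⌈(s e κ - a) / η⌉₊ - 1, by omega, hκ, ?_, ?_⟩
    · have h3 : ((⌈(s e κ - a) / η⌉₊ - 1 : ℕ) : ℝ) < (s e κ - a) / η := by
        rw [← Nat.lt_ceil]; omega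
      rw [lt_div_iff₀ hηpos] at h3
      linarith
    · have h3 : (s e κ - a) / η ≤ ⌈(s e κ - a) / η⌉₊ := Nat.le_ceil _
      rw [div_le_iff₀ hηpos] at h3
      rw [Nat.cast_pred hc0]
      linarith
  have hslice : ∀ j ∈ Finset.range J, ∑ e ∈ S, ENNReal.ofReal (1 / u e) * volume (V e j) ≤
      ENNReal.ofReal (55 * (n * A) * η) := by
    intro j _
    refine slice_bound hn S γ α s u (fun e => V e j) A η hA hηpos hu hsγ hsα ?_ ?_ hJγ hα
      (a + j * η) ?_ ?_
    · intro e he
      refine (hW e he).inter ?_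
      have hc : Continuous (s e) := LinearMap.continuous_of_finiteDimensional _
      exact (measurableSet_lt measurable_const hc.measurable).inter
        (measurableSet_le hc.measurable measurable_const)
    · intro e he
      exact Set.inter_subset_left.trans (hbox e he)
    · intro e _ κ hκ
      exact hκ.2
    · intro e he e' he' hne κ hκ κ' hκ'
      exact hdisj e he e' he' hne κ hκ.1 κ' hκ'.1
  calc ∑ e ∈ S, ENNReal.ofReal (1 / u e) * volume (W e ∩ {κ | a < s e κ ∧ s e κ ≤ b})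
      ≤ ∑ e ∈ S, ∑ j ∈ Finset.range J, ENNReal.ofReal (1 / u e) * volume (V e j) := by
        refine Finset.sum_le_sum fun e he => ?_
        rw [← Finset.mul_sum]
        exact mul_le_mul_right ((measure_mono (hcover e he)).trans
          (measure_biUnion_finset_le _ _)) _
    _ = ∑ j ∈ Finset.range J, ∑ e ∈ S, ENNReal.ofReal (1 / u e) * volume (V e j) :=
        Finset.sum_comm
    _ ≤ ∑ _j ∈ Finset.range J, ENNReal.ofReal (55 * (n * A) * η) := Finset.sum_le_sum hslice
    _ = ENNReal.ofReal (J * (55 * (n * A) * η)) := by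
        rw [Finset.sum_const, Finset.card_range, nsmul_eq_mul,
          ENNReal.ofReal_mul (Nat.cast_nonneg J), ENNReal.ofReal_natCast]
    _ = ENNReal.ofReal (55 * (n * A) * (b - a)) := by
        congr 1
        rw [hη]
        field_simp

end Pool.Agent.Simplex.CI
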