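import Mathlib
import Pool.Agent.Lib.MP_4d246d_lc.CI.Step
import Pool.Agent.Lib.MP_4d246d_lc.CI.Basis

/-! Supports of elementary vectors and short conic representations. -/

namespace Pool.Agent.Simplex.CI

open Matrix

variable {n M : ℕ}

/-- an elementary vector changes at most `M - n + 1` rows -/
theorem elem_card {a : Fin M → Fin n → ℝ} {h : Fin n → ℝ} (hE : Elem a h) :
    (Finset.univ.filter fun l => a l ⬝ᵥ h ≠ 0).card + n ≤ M + 1 := by
  classical
  set Z : Finset (Fin M) := Finset.univ.filter fun l => a l ⬝ᵥ h = 0 with hZ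
  have hcard : (Finset.univ.filter fun l => a l ⬝ᵥ h ≠ 0).card + Z.card = M := by
    have := Finset.card_filter_add_card_filter_not (s := (Finset.univ : Finset (Fin M)))
      (fun l => a l ⬝ᵥ h = 0)
    rw [Finset.card_univ, Fintype.card_fin] at this
    rw [add_comm]; exact this
  have hspan : Submodule.span ℝ (insert h (a '' (Z : Set (Fin M)))) = ⊤ := by
    apply span_top_of_orth
    intro q hq
    obtain ⟨t, ht⟩ := hE.2 q fun l hl => hq _ (Or.inr ⟨l, by simp [hZ, hl], rfl⟩)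
    have h1 := hq h (Or.inl rfl)
    rw [ht, dotProduct_smul, smul_eq_mul] at h1
    have h2 : h ⬝ᵥ h ≠ 0 := fun h0 => hE.1 (dotProduct_self_eq_zero.1 h0)
    rw [ht, (mul_eq_zero.1 h1).resolve_right h2, zero_smul]
  have h1 : n ≤ Z.card + 1 := by
    have h2 : insert h (a '' (Z : Set (Fin M))) = ((insert h (Z.image a) : Finset (Fin n → ℝ)) :
        Set (Fin n → ℝ)) := by push_cast; rfl
    have h3 := finrank_span_finset_le_card (R := ℝ) (insert h (Z.image a))
    rw [← h2, Set.finrank, hspan, finrank_top, Module.finrank_fin_fun] at h3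
    exact h3.trans ((Finset.card_insert_le _ _).trans
      (Nat.add_le_add_right Finset.card_image_le 1))
  omega

/-- a sum over a basis against an elementary vector has few terms -/
theorem sum_few {a : Fin M → Fin n → ℝ} {h : Fin n → ℝ} (hE : Elem a h) {f : Fin n → Fin M}
    (hf : Function.Injective f) {x : Fin n → ℝ} {B : ℝ} (hB : 0 ≤ B)
    (hx : ∀ k, x k ≤ B) (hx0 : ∀ k, a (f k) ⬝ᵥ h = 0 → x k = 0) :
    ∑ k, x k ≤ ((min n (M + 1 - n) : ℕ) : ℝ) * B := by
  classical
  set T := Finset.univ.filter fun k => a (f k) ⬝ᵥ h ≠ 0 with hT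
  have h1 : ∑ k, x k = ∑ k ∈ T, x k := by
    rw [hT, Finset.sum_filter]
    refine Finset.sum_congr rfl fun k _ => ?_
    split_ifs with h2
    · rfl
    · exact hx0 k (not_not.1 h2)
  have hc1 : T.card ≤ n := by
    have := Finset.card_le_univ T
    rwa [Fintype.card_fin] at this
  have hc2 : T.card ≤ (Finset.univ.filter fun l => a l ⬝ᵥ h ≠ 0).card :=
    Finset.card_le_card_of_injOn f (fun k hk => by
      have hk' : k ∈ T := hk
      rw [hT, Finset.mem_filter] at hk'
      simpa using hk'.2) hf.injOn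
  have hc3 := elem_card hE
  have hc : T.card ≤ min n (M + 1 - n) := le_min hc1 (by omega)
  rw [h1]
  calc ∑ k ∈ T, x k ≤ ∑ _k ∈ T, B := Finset.sum_le_sum fun k _ => hx k
    _ = T.card * B := by rw [Finset.sum_const, nsmul_eq_mul]
    _ ≤ _ := mul_le_mul_of_nonneg_right (by exact_mod_cast hc) hB

/-- a nonnegative combination of rows is one of at most `n` rows -/
theorem cone_rep (a : Fin M → Fin n → ℝ) (μ : Fin M → ℝ) (h0 : ∀ l, 0 ≤ μ l) :
    ∃ μ' : Fin M → ℝ, (∀ l, 0 ≤ μ' l) ∧ (∀ l, μ l = 0 → μ' l = 0) ∧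
      ∑ l, μ' l • a l = ∑ l, μ l • a l ∧ (Finset.univ.filter fun l => μ' l ≠ 0).card ≤ n := by
  classical
  let C : ℕ → Prop := fun k => ∃ μ' : Fin M → ℝ, ((∀ l, 0 ≤ μ' l) ∧ (∀ l, μ l = 0 → μ' l = 0) ∧
    ∑ l, μ' l • a l = ∑ l, μ l • a l) ∧ (Finset.univ.filter fun l => μ' l ≠ 0).card = k
  have hex : ∃ k, C k := ⟨_, μ, ⟨h0, fun _ h => h, rfl⟩, rfl⟩
  obtain ⟨ν, ⟨hν0, hνs, hνe⟩, hνk⟩ := Nat.find_spec hex
  have hmin : ∀ ν' : Fin M → ℝ, (∀ l, 0 ≤ ν' l) → (∀ l, μ l = 0 → ν' l = 0) →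
      ∑ l, ν' l • a l = ∑ l, μ l • a l →
      (Finset.univ.filter fun l => ν l ≠ 0).card ≤ (Finset.univ.filter fun l => ν' l ≠ 0).card := by
    intro ν' h1 h2 h3
    rw [hνk]
    exact Nat.find_min' hex ⟨ν', ⟨h1, h2, h3⟩, rfl⟩
  refine ⟨ν, hν0, hνs, hνe, ?_⟩
  by_contra hcard
  push Not at hcard
  set T := Finset.univ.filter fun l => ν l ≠ 0 with hT
  -- a relation
  obtain ⟨g, hg0, hg1, l₁, hl₁⟩ : ∃ g : Fin M → ℝ, (∑ l, g l • a l = 0) ∧
      (∀ l, ν l = 0 → g l = 0) ∧ ∃ l, g l ≠ 0 := by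
    have hdep : ¬ LinearIndependent ℝ (fun l : T => a l) := by
      intro hli
      have := hli.fintype_card_le_finrank
      rw [Fintype.card_coe, Module.finrank_fin_fun] at this
      omega
    rw [Fintype.not_linearIndependent_iff] at hdep
    obtain ⟨g, hg, ⟨i, hi⟩⟩ := hdep
    refine ⟨fun l => if h : l ∈ T then g ⟨l, h⟩ else 0, ?_, ?_, i, ?_⟩
    · rw [← hg]
      have h1 : ∑ l, (if h : l ∈ T then g ⟨l, h⟩ else 0) • a l =
          ∑ l ∈ T, (if h : l ∈ T then g ⟨l, h⟩ else 0) • a l :=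
        (Finset.sum_subset (Finset.subset_univ T) fun l _ hl => by simp [hl]).symm
      rw [h1, ← Finset.sum_coe_sort T]
      exact Finset.sum_congr rfl fun l _ => by simp
    · intro l hl
      have : l ∉ T := by simp [hT, hl]
      simp [this]
    · simpa using hi
  have key : ∀ g : Fin M → ℝ, (∑ l, g l • a l = 0) → (∀ l, ν l = 0 → g l = 0) →
      (∃ l, 0 < g l) → False := by
    rintro g hg0 hg1 ⟨l₁, hl₁⟩
    obtain ⟨lm, hlm, hmin'⟩ := Finset.exists_min_image
      (Finset.univ.filter fun l => 0 < g l) (fun l => ν l / g l) ⟨l₁, by simpa using hl₁⟩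
    have hlm' : 0 < g lm := (Finset.mem_filter.1 hlm).2
    set t : ℝ := ν lm / g lm with ht
    have ht0 : 0 ≤ t := div_nonneg (hν0 _) hlm'.le
    have hnm : ν lm ≠ 0 := fun h => hlm'.ne' (hg1 _ h)
    have h1 := hmin (fun l => ν l - t * g l) (fun l => ?_) (fun l hl => ?_) ?_
    · have h2 : (Finset.univ.filter fun l => ν l - t * g l ≠ 0) ⊂ T := by
        rw [Finset.ssubset_iff_of_subset]
        · refine ⟨lm, by simp [hT, hnm], ?_⟩
          rw [Finset.mem_filter, not_and, not_not]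
          intro _
          rw [ht, div_mul_cancel₀ _ hlm'.ne', sub_self]
        · intro l hl
          rw [Finset.mem_filter] at hl
          rw [hT, Finset.mem_filter]
          refine ⟨hl.1, fun h => hl.2 ?_⟩
          rw [h, hg1 l h, mul_zero, sub_zero]
      have h3 := Finset.card_lt_card h2
      omega
    · by_cases hgl : 0 < g l
      · have h2 : t ≤ ν l / g l := hmin' l (by simpa using hgl)
        rw [le_div_iff₀ hgl] at h2
        linarith
      · push Not at hgl
        have h2 := mul_nonneg ht0 (neg_nonneg.2 hgl)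
        have h3 := hν0 l
        linarith
    · have h2 : ν l = 0 := hνs l hl
      simp [h2, hg1 l h2]
    · rw [← hνe, ← sub_eq_zero, ← Finset.sum_sub_distrib]
      have : ∀ l ∈ Finset.univ, (ν l - t * g l) • a l - ν l • a l = (-t) • (g l • a l) := by
        intro l _
        rw [smul_smul, sub_smul, sub_sub_cancel_left, neg_mul, neg_smul]
      rw [Finset.sum_congr rfl this, ← Finset.smul_sum, hg0, smul_zero]
  rcases lt_or_gt_of_ne hl₁ with h | h
  · exact key (fun l => -g l) (by simp [hg0]) (fun l hl => by simp [hg1 l hl]) ⟨l₁, by simpa using h⟩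
  · exact key g hg0 hg1 ⟨l₁, h⟩

end Pool.Agent.Simplex.CI
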