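import Mathlib
import Pool.Agent.Lib.MP_4d246d_lc.CI.Cone
import Pool.Agent.Lib.MP_4d246d_lc.CI.Conf

/-! Proximity: constraints with a large coefficient at the last pivot are tight. -/

namespace Pool.Agent.Simplex.CI

open Matrix MeasureTheory

variable {n M : ℕ}

/-- one step of a shadow path which cannot leave a facet -/
theorem stay_step {a : Fin M → Fin n → ℝ} {b : Fin M → ℝ} {l₀ : Fin M} {X d : Fin n → ℝ}
    (hX : Gen a d X)
    (hd : ∀ u, Vtx a b u → a l₀ ⬝ᵥ u = b l₀ → ∀ z, ElemAt a b u z → a l₀ ⬝ᵥ z < 0 → d ⬝ᵥ z ≤ 0)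
    (hr : ∀ z : Fin n → ℝ, (∀ l, a l ⬝ᵥ z ≤ 0) → a l₀ ⬝ᵥ z = 0 → (X + d) ⬝ᵥ z ≤ 0)
    {u : Fin n → ℝ} {s : ℝ} (hu : Vtx a b u) (hul : a l₀ ⬝ᵥ u = b l₀) (hs : s ≤ 1)
    (hp : X + s • d ∈ NC a b u) :
    X + d ∈ NC a b u ∨ ∃ (u' : Fin n → ℝ) (τ : ℝ), Vtx a b u' ∧ a l₀ ⬝ᵥ u' = b l₀ ∧ τ ≤ 1 ∧
      X + τ • d ∈ NC a b u' ∧ d ⬝ᵥ u < d ⬝ᵥ u' := by
  rcases pdir hu hX hp with h | ⟨g, τ, hsτ, hpτ, h0, hg3, hg1, hg⟩
  · left
    have : X + d = (X + s • d) + (1 - s) • d := by rw [sub_smul, one_smul]; abel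
    rw [this]
    exact NC_add hp (NC_smul (by linarith) h)
  · rcases le_or_gt 1 τ with h1 | h1
    · left
      intro z hz
      have e1 := hp z hz
      have e2 := hpτ z hz
      simp only [add_dotProduct, smul_dotProduct, smul_eq_mul] at e1 e2 ⊢
      rcases le_or_gt (d ⬝ᵥ z) (d ⬝ᵥ u) with h2 | h2
      · nlinarith
      · nlinarith
    · right
      have hlg : a l₀ ⬝ᵥ g = 0 := by
        refine le_antisymm (hg1 l₀ hul) ?_
        by_contra hlt
        push Not at hlt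
        have := hd u hu hul g hg hlt
        linarith
      rcases edge_end hu hg1 hg with h2 | ⟨t, ht, hE⟩
      · exfalso
        have e1 := hr g h2 hlg
        simp only [add_dotProduct, smul_dotProduct, smul_eq_mul] at e1 h0
        nlinarith
      · refine ⟨u + t • g, τ, hE.vtx', ?_, h1.le, ?_, ?_⟩
        · rw [dotProduct_add, dotProduct_smul, hlg, smul_zero, add_zero, hul]
        · intro z hz
          rw [dotProduct_add, dotProduct_smul, h0, smul_zero, add_zero]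
          exact hpτ z hz
        · rw [dotProduct_add, dotProduct_smul, smul_eq_mul]
          have := mul_pos ht hg3
          linarith

/-- a shadow path which cannot leave a facet -/
theorem stay {a : Fin M → Fin n → ℝ} {b : Fin M → ℝ} {l₀ : Fin M} {X d : Fin n → ℝ}
    (hX : Gen a d X)
    (hd : ∀ u, Vtx a b u → a l₀ ⬝ᵥ u = b l₀ → ∀ z, ElemAt a b u z → a l₀ ⬝ᵥ z < 0 → d ⬝ᵥ z ≤ 0)
    (hr : ∀ z : Fin n → ℝ, (∀ l, a l ⬝ᵥ z ≤ 0) → a l₀ ⬝ᵥ z = 0 → (X + d) ⬝ᵥ z ≤ 0)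
    {u : Fin n → ℝ} (hu : Vtx a b u) (hul : a l₀ ⬝ᵥ u = b l₀) (hp : X ∈ NC a b u) :
    ∃ u, Vtx a b u ∧ a l₀ ⬝ᵥ u = b l₀ ∧ X + d ∈ NC a b u := by
  classical
  suffices key : ∀ (k : ℕ) (u : Fin n → ℝ) (s : ℝ), Vtx a b u → a l₀ ⬝ᵥ u = b l₀ → s ≤ 1 →
      X + s • d ∈ NC a b u →
      ((vtx_finite a b).toFinset.filter fun w => d ⬝ᵥ u < d ⬝ᵥ w).card ≤ k →
      ∃ u, Vtx a b u ∧ a l₀ ⬝ᵥ u = b l₀ ∧ X + d ∈ NC a b u from
    key _ u 0 hu hul zero_le_one (by rw [zero_smul, add_zero]; exact hp) le_rfl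
  intro k
  induction k with
  | zero =>
    intro u s hu hul hs hp hc
    rcases stay_step hX hd hr hu hul hs hp with h | ⟨u', τ, hu', -, -, -, h5⟩
    · exact ⟨u, hu, hul, h⟩
    · exfalso
      have : u' ∈ (vtx_finite a b).toFinset.filter fun w => d ⬝ᵥ u < d ⬝ᵥ w := by
        rw [Finset.mem_filter, Set.Finite.mem_toFinset]
        exact ⟨hu', h5⟩
      rw [Finset.card_eq_zero.1 (Nat.le_zero.1 hc)] at this
      exact absurd this (Finset.notMem_empty _)
  | succ k ih =>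
    intro u s hu hul hs hp hc
    rcases stay_step hX hd hr hu hul hs hp with h | ⟨u', τ, hu', h2, h3, h4, h5⟩
    · exact ⟨u, hu, hul, h⟩
    · refine ih u' τ hu' h2 h3 h4 ?_
      have hlt : ((vtx_finite a b).toFinset.filter fun w => d ⬝ᵥ u' < d ⬝ᵥ w) ⊂
          ((vtx_finite a b).toFinset.filter fun w => d ⬝ᵥ u < d ⬝ᵥ w) := by
        rw [Finset.ssubset_iff_of_subset]
        · refine ⟨u', ?_, ?_⟩
          · rw [Finset.mem_filter, Set.Finite.mem_toFinset]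
            exact ⟨hu', h5⟩
          · rw [Finset.mem_filter]
            rintro ⟨-, h6⟩
            exact lt_irrefl _ h6
        · intro w hw
          rw [Finset.mem_filter] at hw ⊢
          exact ⟨hw.1, h5.trans hw.2⟩
      have := Finset.card_lt_card hlt
      omega

/-- small generic perturbations -/
theorem exists_gen {a : Fin M → Fin n → ℝ} {f : Fin n → Fin M}
    (hf : LinearIndependent ℝ (fun k => a (f k))) (y d : Fin n → ℝ) {ε : ℝ} (hε : 0 < ε) :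
    ∃ κ : Fin n → ℝ, (∀ k, 0 < κ k ∧ κ k < ε) ∧ Gen a d (y + XL a f κ) := by
  obtain ⟨η, hη⟩ := XL_surj hf y
  have h1 : volume {κ : Fin n → ℝ | ¬ Gen a d (y + XL a f κ)} = 0 := by
    have h2 : {κ : Fin n → ℝ | ¬ Gen a d (y + XL a f κ)} = (fun κ => η + κ) ⁻¹' (Zs a d f) := by
      ext κ
      simp only [Set.mem_ofPred_eq, Set.mem_preimage, Zs, map_add, hη]
    rw [h2, measure_preimage_add]
    exact Zs_null a d f hf
  have h3 : volume (Set.pi Set.univ fun _ : Fin n => Set.Ioo (0 : ℝ) ε) ≠ 0 := by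
    rw [volume_pi_pi]
    simp only [Real.volume_Ioo, sub_zero, Finset.prod_const]
    exact pow_ne_zero _ (by simpa using hε)
  by_contra hno
  push Not at hno
  apply h3
  refine measure_mono_null (fun κ hκ => ?_) h1
  rw [Set.mem_univ_pi] at hκ
  exact hno κ fun k => hκ k

/-- proximity: a row with a large coefficient is tight at the optimum -/
theorem tight_of_large {a : Fin M → Fin n → ℝ} {b : Fin M → ℝ} {K : ℝ} (hI : Imb a b K)
    {f : Fin n → Fin M} (hf : Function.Injective f) {ξ : Fin n → ℝ} (hξ : ∀ k, |ξ k| ≤ 1)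
    {β : Fin M → ℝ} (hβ : ∀ l, 0 ≤ β l) {v x w : Fin n → ℝ} (hv : Vtx a b v)
    (hβv : ∀ l, a l ⬝ᵥ v ≠ b l → β l = 0)
    (hw : w = ∑ k, ξ k • a (f k) + ∑ l, β l • a l) (hx : x ∈ Pol a b) (hwx : w ∈ NC a b x)
    {l₀ : Fin M} (hl₀ : ((min n (M + 1 - n) : ℕ) : ℝ) * K < β l₀) (hK : 0 ≤ K) :
    a l₀ ⬝ᵥ x = b l₀ := by
  classical
  set τ : ℝ := ((min n (M + 1 - n) : ℕ) : ℝ) with hτ
  have hpos : 0 < β l₀ := lt_of_le_of_lt (by positivity) hl₀
  have htv : a l₀ ⬝ᵥ v = b l₀ := by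
    by_contra h
    rw [hβv l₀ h] at hpos
    exact lt_irrefl _ hpos
  set d : Fin n → ℝ := ∑ k, ξ k • a (f k) + (τ * K) • a l₀ with hd
  set y : Fin n → ℝ := ∑ l, Function.update β l₀ 0 l • a l with hy
  have hyw : ∑ l, β l • a l = y + β l₀ • a l₀ := by
    rw [hy, ← Finset.add_sum_erase Finset.univ (fun l => β l • a l) (Finset.mem_univ l₀),
      ← Finset.add_sum_erase Finset.univ (fun l => Function.update β l₀ 0 l • a l)
        (Finset.mem_univ l₀)]
    simp only [Function.update_self, zero_smul, zero_add]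
    rw [add_comm]
    congr 1
    refine Finset.sum_congr rfl fun l hl => ?_
    rw [Function.update_of_ne (Finset.ne_of_mem_erase hl)]
  have hyv : y ∈ NC a b v := by
    refine nc_of_rep (Function.update β l₀ 0) (fun l => ?_) (fun l hl => ?_) hy
    · by_cases h : l = l₀
      · subst h; simp
      · rw [Function.update_of_ne h]; exact hβ l
    · by_cases h : l = l₀
      · subst h; simp
      · rw [Function.update_of_ne h]; exact hβv l hl
  have hwd : w = y + d + (β l₀ - τ * K) • a l₀ := by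
    rw [hw, hyw, hd, sub_smul]
    abel
  -- leaving the facet is not attractive
  have hdz : ∀ u, Vtx a b u → a l₀ ⬝ᵥ u = b l₀ → ∀ z, ElemAt a b u z → a l₀ ⬝ᵥ z < 0 →
      d ⬝ᵥ z ≤ 0 := by
    intro u hu hul z hz hlz
    have h1 : ∀ l, |a l ⬝ᵥ z| ≤ K * (-(a l₀ ⬝ᵥ z)) := by
      intro l
      have := hI u hu z hz l l₀ hul hlz.ne
      rwa [abs_of_neg hlz] at this
    have h2 : ∀ k, ξ k * (a (f k) ⬝ᵥ z) ≤ K * (-(a l₀ ⬝ᵥ z)) := by
      intro k
      have h5 : |ξ k * (a (f k) ⬝ᵥ z)| ≤ 1 * (K * (-(a l₀ ⬝ᵥ z))) := by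
        rw [abs_mul]
        exact mul_le_mul (hξ k) (h1 _) (abs_nonneg _) zero_le_one
      rw [one_mul] at h5
      exact (abs_le.1 h5).2
    have h3 := sum_few hz.elem hf (mul_nonneg hK (by linarith)) h2 (fun k hk => by rw [hk]; simp)
    rw [hd, add_dotProduct, sum_dotProduct, smul_dotProduct, smul_eq_mul]
    simp only [smul_dotProduct, smul_eq_mul]
    rw [← hτ] at h3
    nlinarith
  -- the optimum of `y + d` is on the facet
  obtain ⟨u, hu, hul, hpu⟩ : ∃ u, Vtx a b u ∧ a l₀ ⬝ᵥ u = b l₀ ∧ y + d ∈ NC a b u := by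
    by_contra hno
    push Not at hno
    have hclosed : IsClosed (⋃ u ∈ {u | Vtx a b u ∧ a l₀ ⬝ᵥ u = b l₀}, NC a b u) := by
      refine Set.Finite.isClosed_biUnion ((vtx_finite a b).subset fun u hu => hu.1) fun u _ => ?_
      exact NC_closed a b u
    obtain ⟨g, hg, hgli⟩ := exists_basis a {l | a l ⬝ᵥ v = b l} (fun q hq => hv.2 q hq)
    have hcont : Continuous fun κ : Fin n → ℝ => y + d + XL a g κ :=
      continuous_const.add (LinearMap.continuous_of_finiteDimensional _)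
    have hopen := hclosed.isOpen_compl.preimage hcont
    have h0 : (0 : Fin n → ℝ) ∈ (fun κ : Fin n → ℝ => y + d + XL a g κ) ⁻¹'
        (⋃ u ∈ {u | Vtx a b u ∧ a l₀ ⬝ᵥ u = b l₀}, NC a b u)ᶜ := by
      simp only [Set.mem_preimage, map_zero, add_zero, Set.mem_compl_iff, Set.mem_iUnion,
        not_exists]
      intro u hu
      exact hno u hu.1 hu.2
    obtain ⟨ε, hε, hball⟩ := Metric.isOpen_iff.1 hopen 0 h0
    obtain ⟨κ, hκ, hgen⟩ := exists_gen hgli y d hε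
    have hκv : XL a g κ ∈ NC a b v := by
      rw [XL_apply]
      refine Finset.sum_induction _ (fun y => y ∈ NC a b v) (fun _ _ => NC_add) ?_ ?_
      · intro z _; simp
      · intro k _
        exact NC_smul (hκ k).1.le (row_mem_NC (hg k))
    obtain ⟨u, hu, hul, hpu⟩ := stay hgen hdz (fun z hz hz0 => by
      have h1 : w ⬝ᵥ z ≤ 0 := by
        have h2 := hwx (x + z) (fun l => by
          rw [dotProduct_add]
          have h3 := hx l
          have h4 := hz l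
          linarith)
        rw [dotProduct_add] at h2
        linarith
      have h2 : XL a g κ ⬝ᵥ z ≤ 0 := by
        rw [XL_apply, sum_dotProduct]
        refine Finset.sum_nonpos fun k _ => ?_
        rw [smul_dotProduct, smul_eq_mul]
        exact mul_nonpos_of_nonneg_of_nonpos (hκ k).1.le (hz _)
      rw [hwd, add_dotProduct, smul_dotProduct, hz0, smul_zero, add_zero] at h1
      have h3 : y + XL a g κ + d = y + d + XL a g κ := by abel
      rw [h3, add_dotProduct]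
      linarith) hv htv (NC_add hyv hκv)
    have hmem : κ ∈ Metric.ball (0 : Fin n → ℝ) ε := by
      rw [mem_ball_zero_iff, pi_norm_lt_iff hε]
      intro k
      rw [Real.norm_eq_abs, abs_of_pos (hκ k).1]
      exact (hκ k).2
    have h1 := hball hmem
    simp only [Set.mem_preimage, Set.mem_compl_iff, Set.mem_iUnion, not_exists] at h1
    apply h1 u ⟨hu, hul⟩
    have h3 : y + XL a g κ + d = y + d + XL a g κ := by abel
    rw [h3] at hpu
    exact hpu
  have h1 := hwx u hu.1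
  have h2 := hpu x hx
  rw [hwd] at h1
  rw [add_dotProduct (y + d), add_dotProduct (y + d), smul_dotProduct, smul_dotProduct, smul_eq_mul,
    smul_eq_mul, hul] at h1
  have h3 : (β l₀ - τ * K) * b l₀ ≤ (β l₀ - τ * K) * (a l₀ ⬝ᵥ x) := by linarith
  have h4 := le_of_mul_le_mul_left h3 (sub_pos.2 hl₀)
  exact le_antisymm (hx l₀) h4

/-- the speed of a pivot at the time `s`, compared with the last pivot -/
theorem speed_le {a : Fin M → Fin n → ℝ} {b : Fin M → ℝ} {K : ℝ} (hI : Imb a b K) (hK : 0 ≤ K)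
    {f : Fin n → Fin M}
    (hf : Function.Injective f) {κ κ₀ : Fin n → ℝ} (hκ : κ ∈ Set.Icc (0 : Fin n → ℝ) 1) (hκ₀ : κ₀ ∈ Set.Icc (0 : Fin n → ℝ) 1)
    {ω : Fin M → ℝ} (hω : ∀ l, 0 ≤ ω l) {c vs v v' : Fin n → ℝ} (hvs : Vtx a b vs)
    (hωv : ∀ l, a l ⬝ᵥ vs ≠ b l → ω l = 0) {s S μ : ℝ} (hs : 0 < s) (hsS : s ≤ S)
    (hω₀ : ∑ k, κ₀ k • a (f k) + S • c = ∑ l, ω l • a l)
    (hv : v ∈ Pol a b) (hv' : v' ∈ Pol a b)
    (hp : ∑ k, κ k • a (f k) + s • c ∈ NC a b v) (hp' : ∑ k, κ k • a (f k) + s • c ∈ NC a b v')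
    (hE : Elem a (v' - v)) (hμ : ∀ l, |a l ⬝ᵥ (v' - v)| ≤ K * μ) (hμ0 : 0 ≤ μ) :
    s * (c ⬝ᵥ (v' - v)) ≤ K * μ * (s / S * ((min n (M + 1 - n) : ℕ) : ℝ) +
      ∑ l, if s / S * ω l ≤ ((min n (M + 1 - n) : ℕ) : ℝ) * K then s / S * ω l else 0) := by
  set τ : ℝ := ((min n (M + 1 - n) : ℕ) : ℝ) with hτ
  have hS : 0 < S := lt_of_lt_of_le hs hsS
  set ρ : ℝ := s / S with hρ
  have hρ0 : 0 < ρ := div_pos hs hS
  have hρ1 : ρ ≤ 1 := (div_le_one hS).2 hsS
  have hsc : s • c = ρ • (∑ l, ω l • a l) - ρ • ∑ k, κ₀ k • a (f k) := by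
    rw [← hω₀, smul_add, smul_smul, hρ, div_mul_cancel₀ _ hS.ne']
    abel
  have hw : ∑ k, κ k • a (f k) + s • c =
      ∑ k, (κ k - ρ * κ₀ k) • a (f k) + ∑ l, (ρ * ω l) • a l := by
    rw [hsc]
    simp only [sub_smul, mul_smul, Finset.sum_sub_distrib, Finset.smul_sum]
    abel
  have hξ : ∀ k, |κ k - ρ * κ₀ k| ≤ 1 := by
    intro k
    have h1 := hκ.1 k
    have h2 := hκ.2 k
    have h3 := hκ₀.1 k
    have h4 := hκ₀.2 k
    simp only [Pi.zero_apply, Pi.one_apply] at h1 h2 h3 h4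
    rw [abs_le]
    constructor <;> nlinarith
  have hβ : ∀ l, 0 ≤ ρ * ω l := fun l => mul_nonneg hρ0.le (hω l)
  have hβv : ∀ l, a l ⬝ᵥ vs ≠ b l → ρ * ω l = 0 := fun l hl => by rw [hωv l hl, mul_zero]
  have hzero : ∀ l, τ * K < ρ * ω l → a l ⬝ᵥ (v' - v) = 0 := by
    intro l hl
    have h1 := tight_of_large hI hf hξ hβ hvs hβv hw hv hp hl hK
    have h2 := tight_of_large hI hf hξ hβ hvs hβv hw hv' hp' hl hK
    rw [dotProduct_sub, h1, h2, sub_self]
  have h1 : s * (c ⬝ᵥ (v' - v)) = ∑ l, (ρ * ω l) * (a l ⬝ᵥ (v' - v)) -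
      ρ * ∑ k, κ₀ k * (a (f k) ⬝ᵥ (v' - v)) := by
    rw [← smul_eq_mul, ← smul_dotProduct, hsc, sub_dotProduct, smul_dotProduct, smul_dotProduct,
      sum_dotProduct, sum_dotProduct, smul_eq_mul, smul_eq_mul, Finset.mul_sum]
    simp only [smul_dotProduct, smul_eq_mul, mul_assoc]
  have h2 : ∑ l, (ρ * ω l) * (a l ⬝ᵥ (v' - v)) ≤
      K * μ * ∑ l, if ρ * ω l ≤ τ * K then ρ * ω l else 0 := by
    rw [Finset.mul_sum]
    refine Finset.sum_le_sum fun l _ => ?_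
    split_ifs with h
    · have h3 := (abs_le.1 (hμ l)).2
      have := mul_le_mul_of_nonneg_left h3 (hβ l)
      linarith
    · push Not at h
      rw [hzero l h, mul_zero, mul_zero]
  have h3 : -(∑ k, κ₀ k * (a (f k) ⬝ᵥ (v' - v))) ≤ τ * (K * μ) := by
    rw [← Finset.sum_neg_distrib]
    have h4 : ∀ k, -(κ₀ k * (a (f k) ⬝ᵥ (v' - v))) ≤ K * μ := by
      intro k
      have h5 := hκ₀.1 k
      have h6 := hκ₀.2 k
      simp only [Pi.zero_apply, Pi.one_apply] at h5 h6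
      have h7 := (abs_le.1 (hμ (f k))).1
      have h8 : 0 ≤ K * μ := mul_nonneg hK hμ0
      nlinarith
    exact sum_few hE hf (mul_nonneg hK hμ0) h4 (fun k hk => by rw [hk]; simp)
  rw [h1]
  have h4 := mul_le_mul_of_nonneg_left h3 hρ0.le
  nlinarith

end Pool.Agent.Simplex.CI
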