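import Mathlib
import Pool.Agent.Lib.MP_4d246d_lc.CI.Cone
import Pool.Agent.Lib.MP_4d246d_lc.CI.Prox
import Pool.Agent.Lib.MP_4d246d_lc.CI.Meas
import Pool.Agent.Lib.MP_4d246d_lc.CI.Dyadic

/-! The total volume of the walls crossed by the rays of a random anchor. -/

namespace Pool.Agent.Simplex.CI

open Matrix MeasureTheory

variable {n M : ℕ}

/-- improving edges -/
def Imp (a : Fin M → Fin n → ℝ) (b : Fin M → ℝ) (c : Fin n → ℝ) : Type :=
  {e : (Fin n → ℝ) × (Fin n → ℝ) // Edg a b e.1 e.2 ∧ 0 < c ⬝ᵥ (e.2 - e.1)}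

noncomputable instance (a : Fin M → Fin n → ℝ) (b : Fin M → ℝ) (c : Fin n → ℝ) :
    Fintype (Imp a b c) := by
  apply Set.Finite.fintype
  refine ((vtx_finite a b).prod (vtx_finite a b)).subset ?_
  rintro ⟨v, w⟩ ⟨hE, -⟩
  exact ⟨hE.vtx, hE.vtx'⟩

namespace Imp

variable {a : Fin M → Fin n → ℝ} {b : Fin M → ℝ} {c : Fin n → ℝ}

/-- the direction -/
def h (e : Imp a b c) : Fin n → ℝ := e.1.2 - e.1.1

theorem edg (e : Imp a b c) : Edg a b e.1.1 e.1.2 := e.2.1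

theorem pos (e : Imp a b c) : 0 < c ⬝ᵥ e.h := e.2.2

theorem exists_min (e : Imp a b c) : ∃ l, (a l ⬝ᵥ e.1.1 = b l ∧ a l ⬝ᵥ e.h ≠ 0) ∧
    ∀ l', a l' ⬝ᵥ e.1.1 = b l' → a l' ⬝ᵥ e.h ≠ 0 → |a l ⬝ᵥ e.h| ≤ |a l' ⬝ᵥ e.h| := by
  classical
  obtain ⟨i, hi0, hi⟩ := exists_left e.edg.vtx e.edg.vtx'.1 e.edg.ne
  obtain ⟨l, hl, hmin⟩ := Finset.exists_min_image
    (Finset.univ.filter fun l => a l ⬝ᵥ e.1.1 = b l ∧ a l ⬝ᵥ e.h ≠ 0) (fun l => |a l ⬝ᵥ e.h|)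
    ⟨i, Finset.mem_filter.2 ⟨Finset.mem_univ _, hi0, hi.ne⟩⟩
  exact ⟨l, (Finset.mem_filter.1 hl).2,
    fun l' h1 h2 => hmin l' (Finset.mem_filter.2 ⟨Finset.mem_univ _, h1, h2⟩)⟩

/-- the smallest non-zero change of a constraint which is tight at the tail -/
noncomputable def mu (e : Imp a b c) : ℝ := |a e.exists_min.choose ⬝ᵥ e.h|

theorem mu_pos (e : Imp a b c) : 0 < e.mu := abs_pos.2 e.exists_min.choose_spec.1.2

theorem mu_le_row (e : Imp a b c) (l : Fin M) (ht : a l ⬝ᵥ e.1.1 = b l) (hl : a l ⬝ᵥ e.h ≠ 0) :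
    e.mu ≤ |a l ⬝ᵥ e.h| := e.exists_min.choose_spec.2 l ht hl

theorem elemAt (e : Imp a b c) : ElemAt a b e.1.1 e.h := ⟨e.edg.ne, e.edg.one⟩

theorem elem (e : Imp a b c) : Elem a e.h := e.elemAt.elem

theorem row_le {K : ℝ} (hK : Imb a b K) (e : Imp a b c) (l : Fin M) :
    |a l ⬝ᵥ e.h| ≤ K * e.mu :=
  hK e.1.1 e.edg.vtx e.h e.elemAt l e.exists_min.choose e.exists_min.choose_spec.1.1
    e.exists_min.choose_spec.1.2

end Imp

/-- a basis of rows tight at a vertex -/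
noncomputable def tb (a : Fin M → Fin n → ℝ) (b : Fin M → ℝ) (v : Fin n → ℝ) (hv : Vtx a b v) :
    Fin n → Fin M :=
  (exists_basis a {l | a l ⬝ᵥ v = b l} fun q hq => hv.2 q hq).choose

theorem tb_tight {a : Fin M → Fin n → ℝ} {b : Fin M → ℝ} {v : Fin n → ℝ} (hv : Vtx a b v)
    (k : Fin n) : a (tb a b v hv k) ⬝ᵥ v = b (tb a b v hv k) :=
  (exists_basis a {l | a l ⬝ᵥ v = b l} fun q hq => hv.2 q hq).choose_spec.1 k

theorem tb_li {a : Fin M → Fin n → ℝ} {b : Fin M → ℝ} {v : Fin n → ℝ} (hv : Vtx a b v) :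
    LinearIndependent ℝ (fun k => a (tb a b v hv k)) :=
  (exists_basis a {l | a l ⬝ᵥ v = b l} fun q hq => hv.2 q hq).choose_spec.2

/-- a direction into the normal cone of a vertex -/
noncomputable def gv (a : Fin M → Fin n → ℝ) (b : Fin M → ℝ) (v : Fin n → ℝ) (hv : Vtx a b v) :
    Fin n → ℝ := ∑ k, a (tb a b v hv k)

theorem gv_mem {a : Fin M → Fin n → ℝ} {b : Fin M → ℝ} {v : Fin n → ℝ} (hv : Vtx a b v) :
    gv a b v hv ∈ NC a b v := by
  unfold gv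
  refine Finset.sum_induction _ (fun y => y ∈ NC a b v) (fun _ _ => NC_add) ?_ ?_
  · intro z _; simp
  · intro k _
    exact row_mem_NC (tb_tight hv k)

theorem gv_neg {a : Fin M → Fin n → ℝ} {b : Fin M → ℝ} {c : Fin n → ℝ} (e : Imp a b c) :
    gv a b e.1.1 e.edg.vtx ⬝ᵥ e.h ≤ - e.mu := by
  unfold gv
  rw [sum_dotProduct]
  have hle : ∀ k, a (tb a b e.1.1 e.edg.vtx k) ⬝ᵥ e.h ≤ 0 := fun k =>
    tight_le e.edg.vtx'.1 (tb_tight e.edg.vtx k)
  obtain ⟨k, hk⟩ : ∃ k, a (tb a b e.1.1 e.edg.vtx k) ⬝ᵥ e.h ≠ 0 := by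
    by_contra hno
    push Not at hno
    exact e.edg.ne (basis_inj (tb_li e.edg.vtx) hno)
  have h1 := e.mu_le_row _ (tb_tight e.edg.vtx k) hk
  rw [abs_of_nonpos (hle k)] at h1
  have h2 : ∑ k, a (tb a b e.1.1 e.edg.vtx k) ⬝ᵥ e.h ≤ a (tb a b e.1.1 e.edg.vtx k) ⬝ᵥ e.h := by
    have := Finset.single_le_sum (f := fun k => -(a (tb a b e.1.1 e.edg.vtx k) ⬝ᵥ e.h))
      (fun k _ => neg_nonneg.2 (hle k)) (Finset.mem_univ k)
    rw [Finset.sum_neg_distrib] at this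
    linarith
  linarith

theorem XL_dot (a : Fin M → Fin n → ℝ) (f : Fin n → Fin M) (κ h : Fin n → ℝ) :
    XL a f κ ⬝ᵥ h = ∑ k, κ k * (a (f k) ⬝ᵥ h) := by
  rw [XL_apply, sum_dotProduct]
  exact Finset.sum_congr rfl fun k _ => by rw [smul_dotProduct, smul_eq_mul]

/-- crossing time -/
noncomputable def sfun (a : Fin M → Fin n → ℝ) (f : Fin n → Fin M) (h c : Fin n → ℝ) :
    (Fin n → ℝ) →ₗ[ℝ] ℝ where
  toFun κ := -(XL a f κ ⬝ᵥ h) / (c ⬝ᵥ h)
  map_add' x y := by rw [map_add, add_dotProduct]; ring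
  map_smul' t x := by rw [map_smul, smul_dotProduct]; simp only [smul_eq_mul, RingHom.id_apply]; ring

theorem sfun_apply (a : Fin M → Fin n → ℝ) (f : Fin n → Fin M) (h c κ : Fin n → ℝ) :
    sfun a f h c κ = -(XL a f κ ⬝ᵥ h) / (c ⬝ᵥ h) := rfl

theorem sfun_zero {a : Fin M → Fin n → ℝ} {f : Fin n → Fin M} {h c κ : Fin n → ℝ}
    (hc : 0 < c ⬝ᵥ h) : (XL a f κ + sfun a f h c κ • c) ⬝ᵥ h = 0 := by
  rw [add_dotProduct, smul_dotProduct, sfun_apply, smul_eq_mul, div_mul_cancel₀ _ hc.ne']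
  ring

/-- the crossing time is determined by the two ends -/
theorem sfun_eq {a : Fin M → Fin n → ℝ} {b : Fin M → ℝ} {f : Fin n → Fin M}
    {c κ v v' : Fin n → ℝ} {s : ℝ} (hv : v ∈ Pol a b) (hv' : v' ∈ Pol a b)
    (hc : 0 < c ⬝ᵥ (v' - v)) (hp : XL a f κ + s • c ∈ NC a b v)
    (hp' : XL a f κ + s • c ∈ NC a b v') : sfun a f (v' - v) c κ = s := by
  have h1 := hp v' hv'
  have h2 := hp' v hv
  have h3 : (XL a f κ + s • c) ⬝ᵥ (v' - v) = 0 := by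
    rw [dotProduct_sub]; linarith
  rw [add_dotProduct, smul_dotProduct, smul_eq_mul] at h3
  rw [sfun_apply, div_eq_iff hc.ne']
  linarith

/-- walls -/
def W (a : Fin M → Fin n → ℝ) (b : Fin M → ℝ) (c : Fin n → ℝ) (f : Fin n → Fin M)
    (e : Imp a b c) : Set (Fin n → ℝ) :=
  {κ | κ ∈ Set.Icc 0 1 ∧ 0 ≤ sfun a f e.h c κ ∧
    XL a f κ + sfun a f e.h c κ • c ∈ NC a b e.1.1}

theorem W_closed (a : Fin M → Fin n → ℝ) (b : Fin M → ℝ) (c : Fin n → ℝ)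
    (f : Fin n → Fin M) (e : Imp a b c) : IsClosed (W a b c f e) := by
  have c1 : Continuous (sfun a f e.h c) := LinearMap.continuous_of_finiteDimensional _
  have c2 : Continuous (XL a f) := LinearMap.continuous_of_finiteDimensional _
  refine isClosed_Icc.inter ((isClosed_le continuous_const c1).inter ?_)
  exact (NC_closed a b e.1.1).preimage (c2.add (c1.smul continuous_const))

/-- points behind a wall have a unique optimum -/
theorem unique_behind {a : Fin M → Fin n → ℝ} {b : Fin M → ℝ} {c X v v' g : Fin n → ℝ}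
    {s t : ℝ} (hE : Edg a b v v') (hX : Gen a c X) (hc : 0 < c ⬝ᵥ (v' - v))
    (hp : X + s • c ∈ NC a b v) (h0 : (X + s • c) ⬝ᵥ (v' - v) = 0)
    (hg : g ∈ NC a b v) (hgn : g ⬝ᵥ (v' - v) < 0) (ht : 0 < t) {x : Fin n → ℝ}
    (hx : x ∈ Pol a b) (hxe : (X + s • c + t • g) ⬝ᵥ x = (X + s • c + t • g) ⬝ᵥ v) : x = v := by
  have h1 := hp x hx
  have h2 := hg x hx
  rw [add_dotProduct (X + s • c), add_dotProduct (X + s • c), smul_dotProduct, smul_dotProduct,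
    smul_eq_mul, smul_eq_mul] at hxe
  have h3 : t * (g ⬝ᵥ x) ≤ t * (g ⬝ᵥ v) := mul_le_mul_of_nonneg_left h2 ht.le
  have h4 : (X + s • c) ⬝ᵥ x = (X + s • c) ⬝ᵥ v := by linarith
  have h5 : g ⬝ᵥ x = g ⬝ᵥ v := by
    have : t * (g ⬝ᵥ x) = t * (g ⬝ᵥ v) := by linarith
    exact mul_left_cancel₀ ht.ne' this
  have hm := face_eq hE hX hc hp h0 x hx h4
  rw [segment_eq_image'] at hm
  obtain ⟨θ, -, hθ⟩ := hm
  simp only at hθ
  rw [← hθ, dotProduct_add, dotProduct_smul, smul_eq_mul] at h5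
  have h6 : θ * (g ⬝ᵥ (v' - v)) = 0 := by linarith
  have h7 : θ = 0 := (mul_eq_zero.1 h6).resolve_right hgn.ne
  rw [← hθ, h7, zero_smul, add_zero]

/-- the key disjointness, in objective space -/
theorem disj_core {a : Fin M → Fin n → ℝ} {b : Fin M → ℝ} {c X X' v v' w w' g g' : Fin n → ℝ}
    {s s' t t' : ℝ} (hE : Edg a b v v')
    (hE' : Edg a b w w') (hX : Gen a c X) (hX' : Gen a c X')
    (hc : 0 < c ⬝ᵥ (v' - v)) (hc' : 0 < c ⬝ᵥ (w' - w)) (hp : X + s • c ∈ NC a b v)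
    (hp' : X' + s' • c ∈ NC a b w) (h0 : (X + s • c) ⬝ᵥ (v' - v) = 0)
    (h0' : (X' + s' • c) ⬝ᵥ (w' - w) = 0) (hg : g ∈ NC a b v) (hg' : g' ∈ NC a b w)
    (hgn : g ⬝ᵥ (v' - v) < 0) (hgn' : g' ⬝ᵥ (w' - w) < 0) (hgg : v = w → g = g')
    (ht : 0 < t) (ht' : 0 < t') (htt : t' ≤ t)
    (heq : X + s • c + t • g = X' + s' • c + t' • g') : v = w ∧ v' = w' := by
  have hvw : v = w := by
    have hYv : X + s • c + t • g ∈ NC a b v := NC_add hp (NC_smul ht.le hg)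
    have hYw : X + s • c + t • g ∈ NC a b w := by
      rw [heq]; exact NC_add hp' (NC_smul ht'.le hg')
    exact (unique_behind hE hX hc hp h0 hg hgn ht hE'.vtx.1
      (le_antisymm (hYv w hE'.vtx.1) (hYw v hE.vtx.1))).symm
  subst hvw
  refine ⟨rfl, ?_⟩
  obtain rfl := hgg rfl
  have hp'eq : X' + s' • c = (X + s • c) + (t - t') • g := by
    rw [sub_smul]
    linear_combination (exp := 1) -heq
  rcases eq_or_lt_of_le htt with h2 | h2
  · have h3 : X' + s' • c = X + s • c := by rw [hp'eq, h2, sub_self, zero_smul, add_zero]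
    have e1 : (X + s • c) ⬝ᵥ v' = (X + s • c) ⬝ᵥ v := by
      rw [dotProduct_sub] at h0; linarith
    have e2 : (X' + s' • c) ⬝ᵥ w' = (X' + s' • c) ⬝ᵥ v := by
      rw [dotProduct_sub] at h0'; linarith
    have m1 : w' ∈ segment ℝ v v' := face_eq hE hX hc hp h0 w' hE'.vtx'.1 (by rw [← h3]; exact e2)
    have m2 : v' ∈ segment ℝ v w' := face_eq hE' hX' hc' hp' h0' v' hE.vtx'.1 (by rw [h3]; exact e1)
    rw [mem_segment_iff_wbtw] at m1 m2
    exact ((wbtw_swap_right_iff ℝ v).1 ⟨m1, m2⟩).symm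
  · exfalso
    have h3 : (X + s • c) ⬝ᵥ (w' - v) ≤ 0 := by
      rw [dotProduct_sub]
      have := hp w' hE'.vtx'.1
      linarith
    rw [hp'eq, add_dotProduct, smul_dotProduct, smul_eq_mul] at h0'
    have := mul_neg_of_pos_of_neg (sub_pos.2 h2) hgn'
    linarith

end Pool.Agent.Simplex.CI
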