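import Mathlib
import Pool.Agent.Lib.MP_4d246d_lc.CI.Walls

/-! The total volume of the walls: the bound `220 n² τ² K² size K`, `τ = min n (M + 1 - n)`. -/

namespace Pool.Agent.Simplex.CI

open Matrix MeasureTheory

variable {n M : ℕ}

/-- the pivot bound -/
def bnd (n M K : ℕ) : ℕ := 220 * n ^ 2 * (min n (M + 1 - n)) ^ 2 * K ^ 2 * Nat.size K

/-- an elementary inequality -/
theorem min_split {ι : Type} (T : Finset ι) (x : ι → ℝ) (N K y r : ℝ) (hK : 0 ≤ K) (hN : 0 ≤ N)
    (hx : ∀ l ∈ T, 0 ≤ x l) (hr : 0 ≤ r) (h1 : y ≤ N)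
    (h2 : y ≤ K * (r + ∑ l ∈ T, if x l ≤ N then x l else 0)) :
    y ≤ K * r + ∑ l ∈ T, if x l ≤ N then min N (K * x l) else 0 := by
  have hnn : ∀ l ∈ T, 0 ≤ if x l ≤ N then min N (K * x l) else 0 := by
    intro l hl
    split_ifs
    · exact le_min hN (mul_nonneg hK (hx l hl))
    · exact le_rfl
  by_cases hall : ∀ l ∈ T, x l ≤ N → K * x l ≤ N
  · refine h2.trans (le_of_eq ?_)
    rw [mul_add, Finset.mul_sum]
    congr 1
    refine Finset.sum_congr rfl fun l hl => ?_
    split_ifs with h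
    · rw [min_eq_right (hall l hl h)]
    · rw [mul_zero]
  · push Not at hall
    obtain ⟨l, hl, hl1, hl2⟩ := hall
    have h3 : N ≤ ∑ l ∈ T, if x l ≤ N then min N (K * x l) else 0 := by
      refine le_trans (le_of_eq ?_) (Finset.single_le_sum hnn hl)
      rw [if_pos hl1, min_eq_left hl2.le]
    have h4 : 0 ≤ K * r := mul_nonneg hK hr
    linarith

theorem sum_W (hn : 0 < n) (a : Fin M → Fin n → ℝ) (b : Fin M → ℝ) (K : ℕ) (hI : Imb a b K)
    (c : Fin n → ℝ) (f : Fin n → Fin M) (hf : LinearIndependent ℝ (fun k => a (f k)))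
    {v₀ : Fin n → ℝ} (hv₀ : Vtx a b v₀) (ht₀ : ∀ k, a (f k) ⬝ᵥ v₀ = b (f k)) :
    ∑ e, volume (W a b c f e) ≤ (bnd n M K : ℕ) := by
  classical
  have hK1 : (1 : ℝ) ≤ K := one_le_imb hn a b K hI hv₀ f ht₀ hf
  have hK0 : (0 : ℝ) < K := by linarith
  have hn' : (0 : ℝ) < n := by exact_mod_cast hn
  have hn1 : (1 : ℝ) ≤ n := by exact_mod_cast hn
  have hfi : Function.Injective f := li_inj hf
  set τ : ℝ := ((min n (M + 1 - n) : ℕ) : ℝ) with hτ
  have hMn : n ≤ M := by
    have := Fintype.card_le_of_injective f hfi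
    simpa using this
  have hτ1 : (1 : ℝ) ≤ τ := by
    rw [hτ]
    have : 1 ≤ min n (M + 1 - n) := le_min hn (by omega)
    exact_mod_cast this
  have hτ0 : (0 : ℝ) < τ := by linarith
  obtain ⟨α, hα, hαK, hαz⟩ := cramer_imb a b K hI hv₀ f ht₀ hf
  obtain ⟨γ, hγ⟩ := XL_surj hf c
  -- the data of the walls
  set s : Imp a b c → ((Fin n → ℝ) →ₗ[ℝ] ℝ) := fun e => sfun a f e.h c with hs
  set u : Imp a b c → ℝ := fun e => (c ⬝ᵥ e.h) / e.mu with hu
  have hupos : ∀ e, 0 < u e := fun e => div_pos e.pos e.mu_pos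
  set αe : Imp a b c → Fin n → ℝ := fun e => ∑ j, α (tb a b e.1.1 e.edg.vtx j) with hαe
  have hXα : ∀ e, XL a f (αe e) = gv a b e.1.1 e.edg.vtx := by
    intro e
    rw [hαe, map_sum]
    unfold gv
    exact Finset.sum_congr rfl fun j _ => by rw [XL_apply, hα]
  have hαA : ∀ e k, |αe e k| ≤ τ * K := by
    intro e k
    have h1 : αe e k = ∑ j, α (tb a b e.1.1 e.edg.vtx j) k := by
      simp only [hαe, Finset.sum_apply]
    rw [h1]
    refine (Finset.abs_sum_le_sum_abs _ _).trans ?_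
    obtain ⟨z, hz, hzα⟩ := hαz k
    exact sum_few hz (li_inj (tb_li e.edg.vtx)) hK0.le
      (fun j => hαK _ _) (fun j hj => by rw [hzα, hj, abs_zero])
  have hsγ : ∀ e, s e γ = -1 := by
    intro e
    rw [hs]
    simp only
    rw [sfun_apply, hγ, neg_div, div_self e.pos.ne']
  have hsα : ∀ e, 1 / u e ≤ s e (αe e) := by
    intro e
    rw [hs]
    simp only
    rw [sfun_apply, hXα, hu]
    simp only
    rw [one_div_div]
    apply div_le_div_of_nonneg_right _ e.pos.le
    have := gv_neg e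
    linarith
  -- remove the bad anchors
  set B : Set (Fin n → ℝ) := Zs a c f ∪ ⋃ e : Imp a b c, (LinearMap.ker (s e) : Set (Fin n → ℝ))
    with hB
  have hBnull : volume B = 0 := by
    rw [hB]
    refine measure_union_null (Zs_null a c f hf) (measure_iUnion_null fun e => ?_)
    refine Measure.addHaar_submodule _ _ ?_
    intro htop
    have h1 : γ ∈ LinearMap.ker (s e) := by rw [htop]; trivial
    rw [LinearMap.mem_ker, hsγ e] at h1
    norm_num at h1
  have hBmeas : MeasurableSet B := by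
    rw [hB]
    exact (Zs_meas a c f).union (MeasurableSet.iUnion fun e =>
      (Submodule.closed_of_finiteDimensional _).measurableSet)
  set W' : Imp a b c → Set (Fin n → ℝ) := fun e => W a b c f e \ B with hW'
  have hvol : ∀ e, volume (W a b c f e) = volume (W' e) := fun e =>
    (measure_sdiff_null hBnull).symm
  have hWm : ∀ e, MeasurableSet (W' e) := fun e => (W_closed a b c f e).measurableSet.diff hBmeas
  have hWbox : ∀ e, W' e ⊆ Set.Icc 0 1 := fun e κ hκ => hκ.1.1
  have hWgen : ∀ e, ∀ κ ∈ W' e, Gen a c (XL a f κ) := fun e κ hκ => by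
    by_contra h
    exact hκ.2 (Or.inl h)
  have hWpos : ∀ e, ∀ κ ∈ W' e, 0 < s e κ := fun e κ hκ => by
    refine lt_of_le_of_ne hκ.1.2.1 fun h => hκ.2 (Or.inr ?_)
    rw [Set.mem_iUnion]
    exact ⟨e, h.symm⟩
  have hdisj : ∀ e e', e ≠ e' → ∀ κ ∈ W' e, ∀ κ' ∈ W' e', ∀ t t' : ℝ, 0 < t → 0 < t' →
      κ + s e κ • γ + t • αe e ≠ κ' + s e' κ' • γ + t' • αe e' := by
    intro e e' hne κ hκ κ' hκ' t t' ht ht' heq
    apply hne
    have hX := hWgen e κ hκ
    have hX' := hWgen e' κ' hκ'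
    have heq2 : XL a f κ + s e κ • c + t • gv a b e.1.1 e.edg.vtx =
        XL a f κ' + s e' κ' • c + t' • gv a b e'.1.1 e'.edg.vtx := by
      have := congrArg (XL a f) heq
      simpa only [map_add, map_smul, hγ, hXα] using this
    have hgn : gv a b e.1.1 e.edg.vtx ⬝ᵥ (e.1.2 - e.1.1) < 0 :=
      lt_of_le_of_lt (gv_neg e) (neg_neg_of_pos e.mu_pos)
    have hgn' : gv a b e'.1.1 e'.edg.vtx ⬝ᵥ (e'.1.2 - e'.1.1) < 0 :=
      lt_of_le_of_lt (gv_neg e') (neg_neg_of_pos e'.mu_pos)
    have hgg : ∀ (v w : Fin n → ℝ) (hv : Vtx a b v) (hw : Vtx a b w), v = w →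
        gv a b v hv = gv a b w hw := by
      rintro v w hv hw rfl; rfl
    apply Subtype.ext
    rcases le_total t' t with htt | htt
    · obtain ⟨h1, h2⟩ := disj_core e.edg e'.edg hX hX' e.pos e'.pos hκ.1.2.2 hκ'.1.2.2
        (sfun_zero e.pos) (sfun_zero e'.pos) (gv_mem e.edg.vtx) (gv_mem e'.edg.vtx) hgn hgn'
        (hgg _ _ _ _) ht ht' htt heq2
      exact Prod.ext h1 h2
    · obtain ⟨h1, h2⟩ := disj_core e'.edg e.edg hX' hX e'.pos e.pos hκ'.1.2.2 hκ.1.2.2
        (sfun_zero e'.pos) (sfun_zero e.pos) (gv_mem e'.edg.vtx) (gv_mem e.edg.vtx) hgn' hgn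
        (hgg _ _ _ _) ht' ht htt heq2.symm
      exact Prod.ext h1.symm h2.symm
  simp only [hvol]
  -- no crossing at a positive time
  by_cases hex : ∃ e, (W' e).Nonempty
  swap
  · push Not at hex
    have : ∀ e ∈ Finset.univ, volume (W' e) = 0 := fun e _ => by
      rw [hex e, measure_empty]
    rw [Finset.sum_eq_zero this]
    exact zero_le
  obtain ⟨e₁, κ₁, hκ₁⟩ := hex
  -- the last crossing
  obtain ⟨S, e₀, κ₀, hκ₀, hS₀, hSmax⟩ : ∃ (S : ℝ) (e₀ : Imp a b c) (κ₀ : Fin n → ℝ),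
      κ₀ ∈ W a b c f e₀ ∧ s e₀ κ₀ = S ∧ ∀ e, ∀ κ ∈ W a b c f e, s e κ ≤ S := by
    have hcomp : IsCompact (⋃ e : Imp a b c, (s e) '' (W a b c f e)) := by
      refine isCompact_iUnion fun e => IsCompact.image ?_
        (LinearMap.continuous_of_finiteDimensional _)
      exact isCompact_Icc.of_isClosed_subset (W_closed a b c f e) fun κ hκ => hκ.1
    obtain ⟨S, hS1, hS2⟩ := hcomp.exists_isGreatest ⟨s e₁ κ₁, Set.mem_iUnion.2 ⟨e₁, κ₁, hκ₁.1, rfl⟩⟩
    obtain ⟨e₀, κ₀, h1, h2⟩ := Set.mem_iUnion.1 hS1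
    exact ⟨S, e₀, κ₀, h1, h2, fun e κ hκ => hS2 (Set.mem_iUnion.2 ⟨e, κ, hκ, rfl⟩)⟩
  have hSpos : 0 < S := lt_of_lt_of_le (hWpos e₁ κ₁ hκ₁) (hSmax e₁ κ₁ hκ₁.1)
  have hw₀ : XL a f κ₀ + S • c ∈ NC a b e₀.1.1 := by
    have := hκ₀.2.2
    rw [show sfun a f e₀.h c κ₀ = S from hS₀] at this
    exact this
  obtain ⟨μ, hμ0, hμ1, hμ2⟩ := nc_rep e₀.edg.vtx.1 hw₀
  obtain ⟨ω, hω0, hω1, hω2, hωc⟩ := cone_rep a μ hμ0
  have hωv : ∀ l, a l ⬝ᵥ e₀.1.1 ≠ b l → ω l = 0 := fun l hl => hω1 l (hμ1 l hl)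
  set T := Finset.univ.filter fun l => ω l ≠ 0 with hT
  -- the estimate of the speeds
  set N : ℝ := τ * K with hN
  have hN0 : 0 < N := by positivity
  set R : ℕ → ℝ := fun j => K * (τ / 2 ^ (j + 1)) +
    ∑ l ∈ T, if ω l / 2 ^ (j + 1) ≤ N then min N (K * (ω l / 2 ^ (j + 1))) else 0 with hR
  have hR0 : ∀ j, 0 ≤ R j := by
    intro j
    rw [hR]
    refine add_nonneg (by positivity) (Finset.sum_nonneg fun l _ => ?_)
    split_ifs
    · exact le_min hN0.le (mul_nonneg hK0.le (div_nonneg (hω0 l) (by positivity)))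
    · exact le_rfl
  have hspeed : ∀ (e : Imp a b c) (j : ℕ) (κ : Fin n → ℝ), κ ∈ W' e → S / 2 ^ (j + 1) < s e κ →
      u e * (S / 2 ^ (j + 1)) ≤ R j := by
    intro e j κ hκ hj
    have hsp := hWpos e κ hκ
    have hsS := hSmax e κ hκ.1
    have hp : XL a f κ + s e κ • c ∈ NC a b e.1.1 := hκ.1.2.2
    have hp' : XL a f κ + s e κ • c ∈ NC a b e.1.2 := by
      intro z hz
      have h1 : (XL a f κ + s e κ • c) ⬝ᵥ (e.1.2 - e.1.1) = 0 := sfun_zero e.pos
      rw [dotProduct_sub] at h1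
      have h2 := hp z hz
      linarith
    have h2j : (0 : ℝ) < 2 ^ (j + 1) := by positivity
    have hle : S / 2 ^ (j + 1) ≤ s e κ := hj.le
    -- first bound
    have b1 : s e κ * u e ≤ N := by
      rw [hs, hu]
      simp only
      rw [sfun_apply, div_mul_div_comm, div_le_iff₀ (mul_pos e.pos e.mu_pos)]
      have h1 : -(XL a f κ ⬝ᵥ e.h) ≤ τ * (K * e.mu) := by
        rw [XL_dot, ← Finset.sum_neg_distrib]
        have h4 : ∀ k, -(κ k * (a (f k) ⬝ᵥ e.h)) ≤ K * e.mu := by
          intro k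
          have h5 := hκ.1.1.1 k
          have h6 := hκ.1.1.2 k
          simp only [Pi.zero_apply, Pi.one_apply] at h5 h6
          have h7 := (abs_le.1 (e.row_le hI (f k))).1
          have h8 : 0 ≤ K * e.mu := mul_nonneg hK0.le e.mu_pos.le
          nlinarith
        exact sum_few e.elem hfi (mul_nonneg hK0.le e.mu_pos.le) h4
          (fun k hk => by rw [hk]; simp)
      have h2 := mul_le_mul_of_nonneg_right h1 e.pos.le
      calc -(XL a f κ ⬝ᵥ e.h) * (c ⬝ᵥ e.h) ≤ τ * (K * e.mu) * (c ⬝ᵥ e.h) := h2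
        _ = N * (c ⬝ᵥ e.h * e.mu) := by rw [hN]; ring
    -- second bound
    have b2 : s e κ * u e ≤ K * (s e κ / S * τ +
        ∑ l, if s e κ / S * ω l ≤ N then s e κ / S * ω l else 0) := by
      have h1 := speed_le hI hK0.le hfi hκ.1.1 hκ₀.1 hω0 e₀.edg.vtx hωv hsp hsS
        (by rw [← XL_apply, hω2, ← hμ2]) e.edg.vtx.1 e.edg.vtx'.1
        (by rw [← XL_apply]; exact hp) (by rw [← XL_apply]; exact hp')
        e.elem (fun l => e.row_le hI l) e.mu_pos.le
      rw [hu]
      simp only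
      rw [← mul_div_assoc, div_le_iff₀ e.mu_pos]
      calc s e κ * (c ⬝ᵥ e.h) ≤ _ := h1
        _ = _ := by rw [hN]; ring
    have hx1 : u e * (S / 2 ^ (j + 1)) ≤ s e κ * u e := by
      rw [mul_comm (s e κ)]
      exact mul_le_mul_of_nonneg_left hle (hupos e).le
    have c1 : u e * (S / 2 ^ (j + 1)) ≤ N := hx1.trans b1
    have c2 : u e * (S / 2 ^ (j + 1)) ≤ K * (τ / 2 ^ (j + 1) +
        ∑ l ∈ T, if ω l / 2 ^ (j + 1) ≤ N then ω l / 2 ^ (j + 1) else 0) := by
      have hρ : 0 < s e κ / S := div_pos hsp hSpos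
      have hρj : 1 / 2 ^ (j + 1) ≤ s e κ / S := by
        rw [div_le_div_iff₀ h2j hSpos, one_mul]
        rw [div_le_iff₀ h2j] at hle
        exact hle
      -- scale the second bound
      have h1 : u e * (S / 2 ^ (j + 1)) = (1 / 2 ^ (j + 1)) / (s e κ / S) * (s e κ * u e) := by
        field_simp
      rw [h1]
      have h2 : 0 ≤ (1 / 2 ^ (j + 1)) / (s e κ / S) := by positivity
      refine (mul_le_mul_of_nonneg_left b2 h2).trans ?_
      have h3 : (1 / 2 ^ (j + 1)) / (s e κ / S) * (K * (s e κ / S * τ +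
          ∑ l, if s e κ / S * ω l ≤ N then s e κ / S * ω l else 0)) =
          K * (τ / 2 ^ (j + 1) + ∑ l, if s e κ / S * ω l ≤ N then ω l / 2 ^ (j + 1) else 0) := by
        have h4 : ∀ l, (if s e κ / S * ω l ≤ N then ω l / 2 ^ (j + 1) else 0) =
            (1 / 2 ^ (j + 1)) / (s e κ / S) * (if s e κ / S * ω l ≤ N then s e κ / S * ω l else 0) := by
          intro l
          split_ifs
          · field_simp
          · rw [mul_zero]
        simp only [h4]
        rw [← Finset.mul_sum]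
        field_simp
      rw [h3]
      apply mul_le_mul_of_nonneg_left _ hK0.le
      apply add_le_add le_rfl
      rw [hT, Finset.sum_filter]
      refine Finset.sum_le_sum fun l _ => ?_
      by_cases hl : ω l = 0
      · simp [hl]
      · rw [if_pos hl]
        by_cases h5 : s e κ / S * ω l ≤ N
        · have h6 : ω l / 2 ^ (j + 1) ≤ N := by
            refine le_trans ?_ h5
            have := mul_le_mul_of_nonneg_right hρj (hω0 l)
            rw [one_div_mul_eq_div] at this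
            exact this
          rw [if_pos h5, if_pos h6]
        · rw [if_neg h5]
          split_ifs
          · exact div_nonneg (hω0 l) h2j.le
          · exact le_rfl
    exact min_split T (fun l => ω l / 2 ^ (j + 1)) N K _ _ hK0.le hN0.le
      (fun l _ => div_nonneg (hω0 l) h2j.le) (by positivity) c1 c2
  -- dyadic classes
  set V : Imp a b c → ℕ → Set (Fin n → ℝ) := fun e j =>
    W' e ∩ {κ | S / 2 ^ (j + 1) < s e κ ∧ s e κ ≤ S / 2 ^ j} with hV
  have hcover : ∀ e, W' e ⊆ ⋃ j, V e j := by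
    intro e κ hκ
    have h1 := hWpos e κ hκ
    have h2 := hSmax e κ hκ.1
    obtain ⟨j, hj1, hj2⟩ := exists_nat_pow_near (x := S / s e κ) (y := 2)
      ((one_le_div h1).2 h2) (by norm_num)
    rw [Set.mem_iUnion]
    refine ⟨j, hκ, ?_, ?_⟩
    · rw [div_lt_iff₀ (by positivity)]
      rw [div_lt_iff₀ h1] at hj2
      linarith
    · rw [le_div_iff₀ (by positivity)]
      rw [le_div_iff₀ h1] at hj1
      linarith
  have hclass : ∀ j, ∑ e, volume (V e j) ≤ ENNReal.ofReal (55 * (n * N) * R j) := by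
    intro j
    have h2j : (0 : ℝ) < 2 ^ (j + 1) := by positivity
    have hlt : S / 2 ^ (j + 1) < S / 2 ^ j := by
      apply div_lt_div_of_pos_left hSpos (by positivity)
      exact pow_lt_pow_right₀ (by norm_num) (by omega)
    have hr := range_bound hn Finset.univ γ αe s u W' N hN0 (fun e _ => hupos e)
      (fun e _ => hsγ e) (fun e _ => hsα e) (fun e _ => hWm e) (fun e _ => hWbox e)
      (fun e _ => hαA e) (fun e _ e' _ => hdisj e e') (S / 2 ^ (j + 1)) (S / 2 ^ j) hlt
    have hw : S / 2 ^ j - S / 2 ^ (j + 1) = S / 2 ^ (j + 1) := by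
      rw [pow_succ]; field_simp; ring
    rw [hw] at hr
    set q : ℝ := R j / (S / 2 ^ (j + 1)) with hq
    have hq0 : 0 ≤ q := div_nonneg (hR0 j) (by positivity)
    have h1 : ∀ e, volume (V e j) ≤ ENNReal.ofReal q *
        (ENNReal.ofReal (1 / u e) * volume (V e j)) := by
      intro e
      rcases (V e j).eq_empty_or_nonempty with h | ⟨κ, hκ⟩
      · rw [h, measure_empty]; exact zero_le
      · have h2 := hspeed e j κ hκ.1 hκ.2.1
        have h3 : u e ≤ q := by rw [hq, le_div_iff₀ (by positivity)]; exact h2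
        rw [← mul_assoc, ← ENNReal.ofReal_mul hq0]
        have h4 : (1 : ℝ) ≤ q * (1 / u e) := by
          rw [mul_one_div, le_div_iff₀ (hupos e), one_mul]
          exact h3
        calc volume (V e j) = ENNReal.ofReal 1 * volume (V e j) := by
              rw [ENNReal.ofReal_one, one_mul]
          _ ≤ _ := mul_le_mul_left (ENNReal.ofReal_le_ofReal h4) _
    calc ∑ e, volume (V e j)
        ≤ ∑ e, ENNReal.ofReal q * (ENNReal.ofReal (1 / u e) * volume (V e j)) :=
          Finset.sum_le_sum fun e _ => h1 e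
      _ = ENNReal.ofReal q * ∑ e, ENNReal.ofReal (1 / u e) * volume (V e j) := by
          rw [Finset.mul_sum]
      _ ≤ ENNReal.ofReal q * ENNReal.ofReal (55 * (n * N) * (S / 2 ^ (j + 1))) :=
          mul_le_mul_right hr _
      _ = ENNReal.ofReal (55 * (n * N) * R j) := by
          rw [← ENNReal.ofReal_mul hq0, hq]
          congr 1
          field_simp
  -- the sum of the classes
  have hRsum : ∑' j, ENNReal.ofReal (R j) ≤
      ENNReal.ofReal (N + n * (N * (Nat.size K + 2))) := by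
    have h1 : ∀ j, ENNReal.ofReal (R j) = ENNReal.ofReal (K * (τ / 2 ^ (j + 1))) +
        ∑ l ∈ T, ENNReal.ofReal
          (if ω l / 2 ^ (j + 1) ≤ N then min N (K * (ω l / 2 ^ (j + 1))) else 0) := by
      intro j
      rw [hR]
      simp only
      have hnn : ∀ l ∈ T,
          0 ≤ if ω l / 2 ^ (j + 1) ≤ N then min N (K * (ω l / 2 ^ (j + 1))) else 0 := by
        intro l _
        split_ifs
        · exact le_min hN0.le (mul_nonneg hK0.le (div_nonneg (hω0 l) (by positivity)))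
        · exact le_rfl
      rw [ENNReal.ofReal_add (by positivity) (Finset.sum_nonneg hnn),
        ENNReal.ofReal_sum_of_nonneg hnn]
    simp only [h1]
    rw [ENNReal.tsum_add, ENNReal.ofReal_add hN0.le (by positivity)]
    refine add_le_add ?_ ?_
    · have h2 : ∀ j : ℕ, ENNReal.ofReal (K * (τ / 2 ^ (j + 1))) =
          ENNReal.ofReal (N / 2 / 2 ^ j) := by
        intro j
        congr 1
        rw [hN, pow_succ]
        field_simp
      simp only [h2]
      rw [tsum_half (by positivity)]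
      apply ENNReal.ofReal_le_ofReal
      linarith
    · rw [Summable.tsum_finsetSum fun _ _ => ENNReal.summable]
      calc ∑ l ∈ T, ∑' j : ℕ, ENNReal.ofReal
            (if ω l / 2 ^ (j + 1) ≤ N then min N (K * (ω l / 2 ^ (j + 1))) else 0)
          ≤ ∑ _l ∈ T, ENNReal.ofReal (N * (Nat.size K + 2)) :=
            Finset.sum_le_sum fun l _ => tsum_row N hN0 K (ω l)
        _ = T.card * ENNReal.ofReal (N * (Nat.size K + 2)) := by
            rw [Finset.sum_const, nsmul_eq_mul]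
        _ ≤ n * ENNReal.ofReal (N * (Nat.size K + 2)) := by
            gcongr
        _ = ENNReal.ofReal (n * (N * (Nat.size K + 2))) := by
            rw [ENNReal.ofReal_mul (Nat.cast_nonneg n), ENNReal.ofReal_natCast]
  calc ∑ e, volume (W' e) ≤ ∑ e, ∑' j, volume (V e j) :=
        Finset.sum_le_sum fun e _ => (measure_mono (hcover e)).trans (measure_iUnion_le _)
    _ = ∑' j, ∑ e, volume (V e j) := (Summable.tsum_finsetSum fun _ _ => ENNReal.summable).symm
    _ ≤ ∑' j, ENNReal.ofReal (55 * (n * N) * R j) := ENNReal.tsum_le_tsum hclass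
    _ = ENNReal.ofReal (55 * (n * N)) * ∑' j, ENNReal.ofReal (R j) := by
        rw [← ENNReal.tsum_mul_left]
        congr 1
        funext j
        rw [ENNReal.ofReal_mul (by positivity)]
    _ ≤ ENNReal.ofReal (55 * (n * N)) * ENNReal.ofReal (N + n * (N * (Nat.size K + 2))) :=
        mul_le_mul_right hRsum _
    _ = ENNReal.ofReal (55 * (n * N) * (N + n * (N * (Nat.size K + 2)))) := by
        rw [← ENNReal.ofReal_mul (by positivity)]
    _ ≤ ENNReal.ofReal (bnd n M K : ℕ) := by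
        apply ENNReal.ofReal_le_ofReal
        have hKn : 0 < K := by exact_mod_cast hK0
        have hsize : (1 : ℝ) ≤ Nat.size K := by exact_mod_cast Nat.size_pos.2 hKn
        have e0 : ((bnd n M K : ℕ) : ℝ) = 220 * (n : ℝ) ^ 2 * τ ^ 2 * K ^ 2 * Nat.size K := by
          rw [bnd, hτ]; push_cast; ring
        rw [e0, hN]
        have e1 : 55 * (n * (τ * K)) * (τ * K + n * (τ * K * ((Nat.size K : ℝ) + 2))) =
            (55 * n * τ ^ 2 * K ^ 2) * (1 + n * ((Nat.size K : ℝ) + 2)) := by ring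
        have e2 : 220 * (n : ℝ) ^ 2 * τ ^ 2 * K ^ 2 * Nat.size K =
            (55 * n * τ ^ 2 * K ^ 2) * (4 * n * Nat.size K) := by ring
        rw [e1, e2]
        apply mul_le_mul_of_nonneg_left _ (by positivity)
        nlinarith
    _ = (bnd n M K : ℕ) := by rw [ENNReal.ofReal_natCast]

end Pool.Agent.Simplex.CI
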