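import Mathlib
import Pool.Agent.Lib.MP_4d246d_lc.CI.Total

/-! Assembly: shadow paths of a random anchor (algebraic form). -/

namespace Pool.Agent.Simplex.CI

open Matrix MeasureTheory

variable {n M : ℕ}

/-- a shadow path with anchor `X`: strictly improving, consecutive vertices optimal at `s i` -/
structure SPath (a : Fin M → Fin n → ℝ) (b : Fin M → ℝ) (c X : Fin n → ℝ) (k : ℕ)
    (p : ℕ → Fin n → ℝ) (s : ℕ → ℝ) : Prop where
  vtx : ∀ i ≤ k, Vtx a b (p i)
  up : ∀ i < k, c ⬝ᵥ p i < c ⬝ᵥ p (i + 1)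
  nonneg : ∀ i < k, 0 ≤ s i
  opt : ∀ i < k, X + s i • c ∈ NC a b (p i)
  opt' : ∀ i < k, X + s i • c ∈ NC a b (p (i + 1))

/-- unbounded improving edge -/
def Ray (a : Fin M → Fin n → ℝ) (b : Fin M → ℝ) (c v : Fin n → ℝ) : Prop :=
  ∃ z : Fin n → ℝ, 0 < c ⬝ᵥ z ∧ (∀ l, a l ⬝ᵥ z ≤ 0) ∧
      ∀ q : Fin n → ℝ, (∀ l, a l ⬝ᵥ v = b l → a l ⬝ᵥ z = 0 → a l ⬝ᵥ q = 0) →
        ∃ t : ℝ, q = t • z

/-- number of walls through an anchor -/
noncomputable def cnt (a : Fin M → Fin n → ℝ) (b : Fin M → ℝ) (c : Fin n → ℝ)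
    (f : Fin n → Fin M) (κ : Fin n → ℝ) : ℕ := by
  classical
  exact ∑ e : Imp a b c, if κ ∈ W a b c f e then 1 else 0

open Classical in
theorem cnt_eq (a : Fin M → Fin n → ℝ) (b : Fin M → ℝ) (c : Fin n → ℝ)
    (f : Fin n → Fin M) (κ : Fin n → ℝ) :
    cnt a b c f κ = (Finset.univ.filter fun e : Imp a b c => κ ∈ W a b c f e).card := by
  rw [cnt, Finset.card_filter]

theorem cnt_meas (a : Fin M → Fin n → ℝ) (b : Fin M → ℝ) (c : Fin n → ℝ)
    (f : Fin n → Fin M) : Measurable (cnt a b c f) := by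
  classical
  unfold cnt
  refine Finset.measurable_sum _ fun e _ => ?_
  exact Measurable.ite (W_closed a b c f e).measurableSet measurable_const measurable_const

theorem cnt_lint (hn : 0 < n) (a : Fin M → Fin n → ℝ) (b : Fin M → ℝ) (K : ℕ) (hI : Imb a b K)
    (c : Fin n → ℝ) (f : Fin n → Fin M) (hf : LinearIndependent ℝ (fun k => a (f k)))
    {v₀ : Fin n → ℝ} (hv₀ : Vtx a b v₀) (ht₀ : ∀ k, a (f k) ⬝ᵥ v₀ = b (f k)) :
    ∫⁻ κ in Set.Icc (0 : Fin n → ℝ) 1, (cnt a b c f κ : ENNReal) ≤ (bnd n M K : ℕ) := by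
  classical
  have h1 : ∀ κ, (cnt a b c f κ : ENNReal) =
      ∑ e : Imp a b c, (W a b c f e).indicator (fun _ => (1 : ENNReal)) κ := by
    intro κ
    rw [cnt]
    push_cast
    refine Finset.sum_congr rfl fun e _ => ?_
    by_cases h : κ ∈ W a b c f e <;> simp [h]
  simp only [h1]
  rw [lintegral_finsetSum _ fun e _ =>
    measurable_const.indicator (W_closed a b c f e).measurableSet]
  refine le_trans (Finset.sum_le_sum fun e _ => ?_) (sum_W hn a b K hI c f hf hv₀ ht₀)
  rw [lintegral_indicator (W_closed a b c f e).measurableSet]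
  simp only [lintegral_const, one_mul, MeasurableSet.univ, Measure.restrict_apply, Set.univ_inter]
  exact Measure.restrict_apply_le _ _

/-- every shadow path is short -/
theorem spath_le {a : Fin M → Fin n → ℝ} {b : Fin M → ℝ}
    {c : Fin n → ℝ} {f : Fin n → Fin M} {κ : Fin n → ℝ} (hκ : κ ∈ Set.Icc 0 1)
    (hG : Gen a c (XL a f κ)) {k : ℕ} {p : ℕ → Fin n → ℝ} {s : ℕ → ℝ}
    (hp : SPath a b c (XL a f κ) k p s) : k ≤ cnt a b c f κ := by
  classical
  rw [cnt_eq]
  have hE : ∀ i : Fin k, Edg a b (p i) (p (i + 1)) ∧ 0 < c ⬝ᵥ (p (i + 1) - p i) := fun i =>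
    ⟨shadow_edge (hp.vtx i i.2.le) (hp.vtx (i + 1) i.2) hG (hp.opt i i.2) (hp.opt' i i.2)
      (hp.up i i.2), by rw [dotProduct_sub]; linarith [hp.up i i.2]⟩
  let g : Fin k → Imp a b c := fun i => ⟨(p i, p (i + 1)), hE i⟩
  have hmono : ∀ i j : ℕ, i < j → j ≤ k → c ⬝ᵥ p i < c ⬝ᵥ p j := by
    intro i j hij hj
    induction j with
    | zero => omega
    | succ j ih =>
      rcases Nat.lt_succ_iff_lt_or_eq.1 hij with h | h
      · exact (ih h (by omega)).trans (hp.up j (by omega))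
      · rw [h]; exact hp.up j (by omega)
  have hinj : Function.Injective g := by
    intro i j hij
    have h1 : p i = p j := congrArg (fun e : Imp a b c => e.1.1) hij
    by_contra hne
    have hne' : (i : ℕ) ≠ j := fun h => hne (Fin.ext h)
    rcases lt_or_gt_of_ne hne' with h | h
    · have := hmono i j h j.2.le
      rw [h1] at this
      exact lt_irrefl _ this
    · have := hmono j i h i.2.le
      rw [h1] at this
      exact lt_irrefl _ this
  have hmem : ∀ i, g i ∈ Finset.univ.filter fun e : Imp a b c => κ ∈ W a b c f e := by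
    intro i
    rw [Finset.mem_filter]
    have hs : sfun a f (g i).h c κ = s i :=
      sfun_eq (hp.vtx i i.2.le).1 (hp.vtx (i + 1) i.2).1 (g i).pos (hp.opt i i.2) (hp.opt' i i.2)
    refine ⟨Finset.mem_univ _, hκ, ?_, ?_⟩
    · rw [hs]; exact hp.nonneg i i.2
    · rw [hs]; exact hp.opt i i.2
  calc k = (Finset.univ.image g).card := by
        rw [Finset.card_image_of_injective _ hinj, Finset.card_univ, Fintype.card_fin]
    _ ≤ _ := Finset.card_le_card (by
        intro e he
        obtain ⟨i, -, rfl⟩ := Finset.mem_image.1 he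
        exact hmem i)

/-- shadow paths from the same vertex agree -/
theorem spath_unique {a : Fin M → Fin n → ℝ} {b : Fin M → ℝ}
    {c X : Fin n → ℝ} (hG : Gen a c X) {k k' : ℕ} {p p' : ℕ → Fin n → ℝ} {s s' : ℕ → ℝ}
    (hp : SPath a b c X k p s) (hp' : SPath a b c X k' p' s') (h0 : p' 0 = p 0) :
    ∀ i, i ≤ k → i ≤ k' → p' i = p i := by
  have key : ∀ {u w v : Fin n → ℝ} {s s' : ℝ}, Vtx a b v → Vtx a b u → Vtx a b w →
      X + s • c ∈ NC a b v → X + s • c ∈ NC a b u → X + s' • c ∈ NC a b v →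
      X + s' • c ∈ NC a b w → c ⬝ᵥ v < c ⬝ᵥ u → c ⬝ᵥ v < c ⬝ᵥ w → s' ≤ s := by
    intro u w v s s' hv hu hw h1 h2 h3 h4 h5 h6
    by_contra hlt
    push Not at hlt
    have e1 := h2 v hv.1
    have e2 := h3 u hu.1
    rw [add_dotProduct, add_dotProduct, smul_dotProduct, smul_dotProduct, smul_eq_mul,
      smul_eq_mul] at e1 e2
    have := mul_pos (sub_pos.2 hlt) (sub_pos.2 h5)
    nlinarith
  intro i
  induction i with
  | zero => intro _ _; exact h0
  | succ i ih =>
    intro hk hk'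
    have hi := ih (by omega) (by omega)
    have a1 := hp.opt i hk
    have a2 := hp.opt' i hk
    have a3 := hp'.opt i hk'
    have a4 := hp'.opt' i hk'
    have u1 := hp.up i hk
    have u2 := hp'.up i hk'
    rw [hi] at a3 u2
    have v0 := hp.vtx i (by omega)
    have v1 := hp.vtx (i + 1) hk
    have v2 := hp'.vtx (i + 1) hk'
    have hs : s i = s' i := le_antisymm (key v0 v2 v1 a3 a4 a1 a2 u2 u1)
      (key v0 v1 v2 a1 a2 a3 a4 u1 u2)
    rw [← hs] at a3 a4
    have hE := shadow_edge v0 v1 hG a1 a2 u1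
    have hE' := shadow_edge v0 v2 hG a1 a4 u2
    have z1 := le_antisymm (a1 _ v1.1) (a2 _ v0.1)
    have z2 := le_antisymm (a1 _ v2.1) (a4 _ v0.1)
    have z : (X + s i • c) ⬝ᵥ (p (i + 1) - p i) = 0 := by rw [dotProduct_sub, z1, sub_self]
    have z' : (X + s i • c) ⬝ᵥ (p' (i + 1) - p i) = 0 := by rw [dotProduct_sub, z2, sub_self]
    have m1 : p' (i + 1) ∈ segment ℝ (p i) (p (i + 1)) :=
      face_eq hE hG (by rw [dotProduct_sub]; linarith) a1 z _ v2.1 z2
    have m2 : p (i + 1) ∈ segment ℝ (p i) (p' (i + 1)) :=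
      face_eq hE' hG (by rw [dotProduct_sub]; linarith) a1 z' _ v1.1 z1
    rw [mem_segment_iff_wbtw] at m1 m2
    exact (wbtw_swap_right_iff ℝ (p i)).1 ⟨m1, m2⟩

/-- a maximal shadow path exists -/
theorem spath_exists {a : Fin M → Fin n → ℝ} {b : Fin M → ℝ}
    {c X v₀ : Fin n → ℝ} (hG : Gen a c X) (hv : Vtx a b v₀) (hX : X ∈ NC a b v₀) (K : ℕ)
    (hK : ∀ k p s, SPath a b c X k p s → k ≤ K) :
    ∃ k p s, SPath a b c X k p s ∧ p 0 = v₀ ∧ (c ∈ NC a b (p k) ∨ Ray a b c (p k)) := by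
  by_contra hno
  push Not at hno
  have hstep : ∀ k, ∃ p s, SPath a b c X k p s ∧ p 0 = v₀ ∧ ∃ r : ℝ, 0 ≤ r ∧
      X + r • c ∈ NC a b (p k) := by
    intro k
    induction k with
    | zero =>
      refine ⟨fun _ => v₀, fun _ => 0, ⟨fun _ _ => hv, ?_, ?_, ?_, ?_⟩, rfl, 0, le_rfl, ?_⟩
      · intro i hi; omega
      · intro i hi; omega
      · intro i hi; omega
      · intro i hi; omega
      · rw [zero_smul, add_zero]; exact hX
    | succ k ih =>
      obtain ⟨p, s, hp, hp0, r, hr, hrc⟩ := ih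
      obtain ⟨hn1, hn2⟩ := hno k p s hp hp0
      rcases pstep (hp.vtx k le_rfl) hG hrc with h | h | ⟨v', τ, hE, hc, hsτ, hτ, h0⟩
      · exact absurd h hn1
      · exact absurd h hn2
      · have hend : X + τ • c ∈ NC a b v' := by
          intro z hz
          rw [dotProduct_sub] at h0
          have := hτ z hz
          linarith
        have hup : c ⬝ᵥ p k < c ⬝ᵥ v' := by
          rw [dotProduct_sub] at hc
          linarith
        refine ⟨fun j => if j ≤ k then p j else v', fun j => if j < k then s j else τ,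
          ⟨?_, ?_, ?_, ?_, ?_⟩, by simp [hp0], τ, hr.trans hsτ, ?_⟩
        · intro j hj
          by_cases hjk : j ≤ k
          · simp only [hjk, if_true]; exact hp.vtx j hjk
          · simp only [hjk, if_false]; exact hE.vtx'
        · intro j hj
          rcases Nat.lt_succ_iff_lt_or_eq.1 hj with hjk | hjk
          · simp only [hjk.le, Nat.succ_le_of_lt hjk, if_true]
            exact hp.up j hjk
          · subst hjk
            simp only [le_refl, if_true, Nat.not_succ_le_self, if_false]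
            exact hup
        · intro j hj
          by_cases hjk : j < k
          · simp only [hjk, if_true]; exact hp.nonneg j hjk
          · simp only [hjk, if_false]; exact hr.trans hsτ
        · intro j hj
          rcases Nat.lt_succ_iff_lt_or_eq.1 hj with hjk | hjk
          · simp only [hjk, hjk.le, if_true]
            exact hp.opt j hjk
          · subst hjk
            simp only [le_refl, lt_irrefl, if_true, if_false]
            exact hτ
        · intro j hj
          rcases Nat.lt_succ_iff_lt_or_eq.1 hj with hjk | hjk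
          · simp only [hjk, Nat.succ_le_of_lt hjk, if_true]
            exact hp.opt' j hjk
          · subst hjk
            simp only [lt_irrefl, Nat.not_succ_le_self, if_false]
            exact hend
        · simp only [Nat.not_succ_le_self, if_false]
          exact hend
  obtain ⟨p, s, hp, -⟩ := hstep (K + 1)
  have := hK _ p s hp
  omega

/-- the anchor is in the normal cone of the start vertex -/
theorem XL_mem {a : Fin M → Fin n → ℝ} {b : Fin M → ℝ} {v₀ κ : Fin n → ℝ} {f : Fin n → Fin M}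
    (ht : ∀ k, a (f k) ⬝ᵥ v₀ = b (f k)) (hκ : κ ∈ Set.Icc 0 1) :
    XL a f κ ∈ NC a b v₀ := by
  rw [XL_apply]
  refine Finset.sum_induction _ (fun y => y ∈ NC a b v₀) (fun _ _ => NC_add) ?_ ?_
  · intro z _; simp
  · intro k _
    exact NC_smul (hκ.1 k) (row_mem_NC (ht k))

/-- main theorem, algebraic form -/
theorem main_alg (hn : 0 < n) (a : Fin M → Fin n → ℝ) (b : Fin M → ℝ) (K : ℕ) (hI : Imb a b K)
    (c : Fin n → ℝ) (f : Fin n → Fin M) (hf : LinearIndependent ℝ (fun k => a (f k)))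
    (v₀ : Fin n → ℝ) (hv : Vtx a b v₀) (ht : ∀ k, a (f k) ⬝ᵥ v₀ = b (f k)) :
    ∃ N : (Fin n → ℝ) → ℕ, Measurable N ∧
      ∫⁻ κ in Set.Icc (0 : Fin n → ℝ) 1, (N κ : ENNReal) ≤ (bnd n M K : ℕ) ∧
      ∀ᵐ κ, κ ∈ Set.Icc (0 : Fin n → ℝ) 1 → Gen a c (∑ k, κ k • a (f k)) ∧
        (∀ k p s, SPath a b c (∑ k, κ k • a (f k)) k p s → k ≤ N κ) ∧
        ∃ k p s, SPath a b c (∑ k, κ k • a (f k)) k p s ∧ p 0 = v₀ ∧
          (c ∈ NC a b (p k) ∨ Ray a b c (p k)) := by
  refine ⟨cnt a b c f, cnt_meas a b c f, cnt_lint hn a b K hI c f hf hv ht, ?_⟩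
  have hZ : ∀ᵐ κ, κ ∉ Zs a c f := by
    rw [ae_iff]
    simpa using Zs_null a c f hf
  filter_upwards [hZ] with κ hκZ hκ
  have hG : Gen a c (XL a f κ) := not_not.1 hκZ
  rw [← XL_apply]
  have h1 : ∀ k p s, SPath a b c (XL a f κ) k p s → k ≤ cnt a b c f κ :=
    fun k p s hp => spath_le hκ hG hp
  exact ⟨hG, h1, spath_exists hG hv (XL_mem ht hκ) _ h1⟩

end Pool.Agent.Simplex.CI
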