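import Mathlib
import Pool.Agent.Lib.MP_4d246d_lc.CI.LPDefs
import Pool.Agent.Lib.MP_4d246d_lc.CI.Ext
import Pool.Agent.Lib.MP_4d246d_lc.CI.Main

/-! From polyhedra to linear programs. -/

namespace Pool.Agent.Simplex.Tableau

open Matrix MeasureTheory CI

variable {m n : ℕ} (P : LP m n)

namespace LP

/-- weighted rows -/
def ar (wt : Fin m → ℝ) : Fin m → Fin n → ℝ := fun i => wt i • P.A i

/-- weighted right hand sides -/
def br (wt : Fin m → ℝ) : Fin m → ℝ := fun i => wt i * P.b i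

theorem dot_eq (x y : Fin n → ℝ) : x ⬝ᵥ y = ∑ j, x j * y j := rfl

theorem ar_dot (wt : Fin m → ℝ) (i : Fin m) (x : Fin n → ℝ) :
    P.ar wt i ⬝ᵥ x = wt i * P.row i x := by
  rw [ar, smul_dotProduct, smul_eq_mul]
  rfl

variable {wt : Fin m → ℝ} (hw : ∀ i, 0 < wt i)

include hw

theorem ar_le (i : Fin m) (x : Fin n → ℝ) :
    P.ar wt i ⬝ᵥ x ≤ P.br wt i ↔ P.row i x ≤ P.b i := by
  rw [ar_dot, br]
  exact mul_le_mul_iff_right₀ (hw i)

theorem ar_tight (i : Fin m) (x : Fin n → ℝ) :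
    P.ar wt i ⬝ᵥ x = P.br wt i ↔ P.row i x = P.b i := by
  rw [ar_dot, br]
  exact mul_right_inj' (hw i).ne'

theorem ar_zero (i : Fin m) (x : Fin n → ℝ) :
    P.ar wt i ⬝ᵥ x = 0 ↔ P.row i x = 0 := by
  rw [ar_dot, mul_eq_zero]
  exact ⟨fun h => h.resolve_left (hw i).ne', Or.inr⟩

theorem feasible_eq : P.feasible = Pol (P.ar wt) (P.br wt) := by
  ext x
  exact forall_congr' fun l => (P.ar_le hw l x).symm

theorem vertex_iff (x : Fin n → ℝ) : P.Vertex x ↔ Vtx (P.ar wt) (P.br wt) x := by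
  unfold Vertex
  rw [P.feasible_eq hw]
  exact ⟨vtx_of_ext, ext_of_vtx⟩

theorem shadow_iff (w : Fin n → ℝ) (s : ℝ) (x : Fin n → ℝ) :
    P.Shadow w s x ↔ x ∈ Pol (P.ar wt) (P.br wt) ∧ w + s • P.c ∈ NC (P.ar wt) (P.br wt) x := by
  unfold Shadow NC
  rw [P.feasible_eq hw]
  refine and_congr_right fun _ => forall_congr' fun y => imp_congr_right fun _ => ?_
  rw [add_dotProduct, add_dotProduct, smul_dotProduct, smul_dotProduct]
  rfl

theorem li_iff (r : Fin n → Fin m) :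
    LinearIndependent ℝ (fun k => P.A (r k)) ↔
      LinearIndependent ℝ (fun k => P.ar wt (r k)) := by
  have h : (fun k => P.ar wt (r k)) =
      (fun k => Units.mk0 (wt (r k)) (hw (r k)).ne') • (fun k => P.A (r k)) := by
    funext k; rfl
  rw [h, LinearIndependent.units_smul_iff]

theorem tight_iff (x : Fin n → ℝ) (r : Fin n → Fin m) :
    P.TightBasis x r ↔ LinearIndependent ℝ (fun k => P.ar wt (r k)) ∧
      ∀ k, P.ar wt (r k) ⬝ᵥ x = P.br wt (r k) := by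
  unfold TightBasis
  rw [P.li_iff hw]
  exact and_congr_right fun _ => forall_congr' fun k => (P.ar_tight hw _ _).symm

omit hw in
theorem auxiliary_eq (r : Fin n → Fin m) (κ : Fin n → ℝ) :
    P.auxiliary wt r κ = ∑ k, κ k • P.ar wt (r k) := by
  ext j
  rw [Finset.sum_apply]
  exact Finset.sum_congr rfl fun k _ => rfl

omit hw in
theorem exists_tight {x : Fin n → ℝ} (hx : P.Vertex x) : ∃ r, P.TightBasis x r := by
  have h1 : ∀ i : Fin m, (0 : ℝ) < (fun _ => 1 : Fin m → ℝ) i := fun _ => one_pos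
  have hv := (P.vertex_iff h1 x).1 hx
  obtain ⟨f, hf, hli⟩ := exists_basis (P.ar fun _ => 1)
    {l | P.ar (fun _ => 1) l ⬝ᵥ x = P.br (fun _ => 1) l} (fun q hq => hv.2 q hq)
  exact ⟨f, (P.tight_iff h1 _ _).2 ⟨hli, hf⟩⟩

theorem imb_of {K : ℕ} (h : P.TableauLE wt K) : Imb (P.ar wt) (P.br wt) K := by
  apply imb_of_coeff
  intro v hv r hli ht l α hα k
  have hb : P.TightBasis v r := (P.tight_iff hw v r).2 ⟨hli, ht⟩
  have h1 := h v ((P.vertex_iff hw v).2 hv) r hb l (fun k => α k * wt (r k) / wt l) (fun j => by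
    have h2 := congrFun hα j
    simp only [ar, Pi.smul_apply, smul_eq_mul, Finset.sum_apply] at h2
    have h3 : P.A l j = (∑ k, α k * (wt (r k) * P.A (r k) j)) / wt l := by
      rw [eq_div_iff (hw l).ne', mul_comm]
      exact h2
    rw [h3, Finset.sum_div]
    refine Finset.sum_congr rfl fun k _ => ?_
    ring) k
  rw [abs_div, abs_mul, abs_of_pos (hw l), abs_of_pos (hw (r k)), mul_div_cancel₀ _ (hw l).ne'] at h1
  exact le_of_mul_le_mul_right h1 (hw (r k))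

theorem improving_of_edg {v v' : Fin n → ℝ}
    (hE : Edg (P.ar wt) (P.br wt) v v') (hc : P.c ⬝ᵥ v < P.c ⬝ᵥ v') : P.Improving v v' := by
  refine ⟨⟨(P.vertex_iff hw _).2 hE.vtx, (P.vertex_iff hw _).2 hE.vtx', ?_, ?_⟩, hc⟩
  · rintro rfl; exact lt_irrefl _ hc
  · rw [P.feasible_eq hw]; exact hE.extreme

/-- a run of the shadow rule is a shadow path -/
theorem spath_of_run {w : Fin n → ℝ} {k : ℕ} {p : ℕ → Fin n → ℝ} (h0 : P.Vertex (p 0))
    (h : P.ShadowRun w k p) : ∃ s, SPath (P.ar wt) (P.br wt) P.c w k p s := by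
  choose! s hs0 hs1 hs2 using h.shadow
  refine ⟨s, ⟨fun i hi => ?_, fun i hi => (h.pivot i hi).2, hs0, fun i hi =>
    ((P.shadow_iff hw _ _ _).1 (hs1 i hi)).2, fun i hi => ((P.shadow_iff hw _ _ _).1 (hs2 i hi)).2⟩⟩
  rw [← P.vertex_iff hw]
  rcases Nat.eq_zero_or_pos i with h1 | h1
  · rw [h1]; exact h0
  · have := (h.pivot (i - 1) (by omega)).1.2.1
    rwa [Nat.sub_add_cancel h1] at this

/-- a final shadow path gives a complete run -/
theorem run_of_spath {w : Fin n → ℝ}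
    (hG : Gen (P.ar wt) P.c w) {k : ℕ} {p : ℕ → Fin n → ℝ} {s : ℕ → ℝ}
    (h : SPath (P.ar wt) (P.br wt) P.c w k p s)
    (hk : P.c ∈ NC (P.ar wt) (P.br wt) (p k) ∨ Ray (P.ar wt) (P.br wt) P.c (p k)) :
    ∃ k, P.ShadowRun w k p ∧ P.Final (p k) ∧ ∃ s, SPath (P.ar wt) (P.br wt) P.c w k p s := by
  classical
  have hfin : P.Final (p k) := by
    have hv := h.vtx k le_rfl
    refine ⟨(P.vertex_iff hw _).2 hv, ?_⟩
    rcases hk with hk | ⟨z, hz1, hz2, hz3⟩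
    · left
      refine ⟨by rw [P.feasible_eq hw]; exact hv.1, fun y hy => ?_⟩
      rw [P.feasible_eq hw] at hy
      exact hk y hy
    · right
      refine ⟨(P.vertex_iff hw _).2 hv, z, hz1, ?_⟩
      rw [P.feasible_eq hw]
      exact ray_extreme hv hz1 hz2 hz3
  have hex : ∃ k, P.Final (p k) := ⟨k, hfin⟩
  have hle : Nat.find hex ≤ k := Nat.find_min' hex hfin
  have hsp : SPath (P.ar wt) (P.br wt) P.c w (Nat.find hex) p s :=
    ⟨fun i hi => h.vtx i (hi.trans hle), fun i hi => h.up i (lt_of_lt_of_le hi hle),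
      fun i hi => h.nonneg i (lt_of_lt_of_le hi hle), fun i hi => h.opt i (lt_of_lt_of_le hi hle),
      fun i hi => h.opt' i (lt_of_lt_of_le hi hle)⟩
  refine ⟨Nat.find hex, ⟨fun i hi => ?_, fun i hi => ⟨s i, hsp.nonneg i hi, ?_, ?_⟩,
    fun i hi => Nat.find_min hex hi⟩, Nat.find_spec hex, s, hsp⟩
  · have hE := shadow_edge (hsp.vtx i hi.le) (hsp.vtx (i + 1) hi) hG
      (hsp.opt i hi) (hsp.opt' i hi) (hsp.up i hi)
    exact P.improving_of_edg hw hE (hsp.up i hi)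
  · exact (P.shadow_iff hw _ _ _).2 ⟨(hsp.vtx i hi.le).1, hsp.opt i hi⟩
  · exact (P.shadow_iff hw _ _ _).2 ⟨(hsp.vtx (i + 1) hi).1, hsp.opt' i hi⟩

/-- the random anchor theorem -/
theorem random_main (hn : 0 < n) {K : ℕ} (hK : P.TableauLE wt K) {v₀ : Fin n → ℝ}
    (hv : P.Vertex v₀) {r : Fin n → Fin m} (hr : P.TightBasis v₀ r) :
    ∃ N : (Fin n → ℝ) → ℕ, Measurable N ∧
      ∫⁻ κ in Set.Icc (0 : Fin n → ℝ) 1, (N κ : ENNReal) ≤ (pivotBound m n K : ℕ) ∧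
      ∀ᵐ κ, κ ∈ Set.Icc (0 : Fin n → ℝ) 1 → ∃ (k : ℕ) (p : ℕ → Fin n → ℝ), k ≤ N κ ∧ p 0 = v₀ ∧
        P.ShadowRun (P.auxiliary wt r κ) k p ∧ P.Final (p k) ∧
        ∀ k' p', p' 0 = v₀ → P.ShadowRun (P.auxiliary wt r κ) k' p' →
          k' ≤ k ∧ ∀ i ≤ k', p' i = p i := by
  obtain ⟨hli, htight⟩ := (P.tight_iff hw v₀ r).1 hr
  obtain ⟨N, hN1, hN2, hN3⟩ := main_alg hn (P.ar wt) (P.br wt) K (P.imb_of hw hK) P.c r hli
    v₀ ((P.vertex_iff hw v₀).1 hv) htight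
  refine ⟨N, hN1, hN2, ?_⟩
  filter_upwards [hN3] with κ hκ hbox
  obtain ⟨hG, hle, k, p, s, hp, hp0, hfin⟩ := hκ hbox
  rw [← auxiliary_eq] at hG hle hp
  obtain ⟨k1, hrun, hF, s1, hs1⟩ := P.run_of_spath hw hG hp hfin
  refine ⟨k1, p, hle _ _ _ hs1, hp0, hrun, hF, ?_⟩
  intro k' p' hp'0 hrun'
  obtain ⟨s', hs'⟩ := P.spath_of_run hw (by rw [hp'0]; exact hv) hrun'
  have huniq := spath_unique hG hs1 hs' (by rw [hp0, hp'0])
  have hk : k' ≤ k1 := by
    by_contra hlt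
    push Not at hlt
    have h1 := huniq k1 le_rfl hlt.le
    apply hrun'.go k1 hlt
    rw [h1]
    exact hF
  exact ⟨hk, fun i hi => huniq i (hi.trans hk) hi⟩

omit hw in
theorem final_zero {P : LP m 0} {v₀ : Fin 0 → ℝ} (hv : P.Vertex v₀) : P.Final v₀ :=
  ⟨hv, Or.inl ⟨hv.1, fun y _ => by rw [Subsingleton.elim y v₀]⟩⟩

/-- the random anchor theorem, all dimensions -/
theorem random_all {K : ℕ} (hK : P.TableauLE wt K) {v₀ : Fin n → ℝ}
    (hv : P.Vertex v₀) {r : Fin n → Fin m} (hr : P.TightBasis v₀ r) :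
    ∃ N : (Fin n → ℝ) → ℕ, Measurable N ∧
      ∫⁻ κ in Set.Icc (0 : Fin n → ℝ) 1, (N κ : ENNReal) ≤ (pivotBound m n K : ℕ) ∧
      ∀ᵐ κ, κ ∈ Set.Icc (0 : Fin n → ℝ) 1 → ∃ (k : ℕ) (p : ℕ → Fin n → ℝ), k ≤ N κ ∧ p 0 = v₀ ∧
        P.ShadowRun (P.auxiliary wt r κ) k p ∧ P.Final (p k) ∧
        ∀ k' p', p' 0 = v₀ → P.ShadowRun (P.auxiliary wt r κ) k' p' →
          k' ≤ k ∧ ∀ i ≤ k', p' i = p i := by
  rcases Nat.eq_zero_or_pos n with rfl | hn
  · refine ⟨fun _ => 0, measurable_const, by simp, Filter.Eventually.of_forall fun κ _ => ?_⟩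
    refine ⟨0, fun _ => v₀, le_rfl, rfl, ⟨?_, ?_, ?_⟩, final_zero hv, ?_⟩
    · intro i hi; omega
    · intro i hi; omega
    · intro i hi; omega
    · intro k' p' h0 hrun
      have hk : k' = 0 := by
        by_contra hne
        apply hrun.go 0 (by omega)
        rw [h0]
        exact final_zero hv
      subst hk
      refine ⟨le_rfl, fun i hi => ?_⟩
      rw [Nat.le_zero.1 hi, h0]
  · exact P.random_main hw hn hK hv hr

omit hw in
instance prob_box : IsProbabilityMeasure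
    (volume.restrict (Set.Icc (0 : Fin n → ℝ) 1)) := by
  constructor
  rw [Measure.restrict_apply_univ, Real.volume_Icc_pi]
  simp

/-- short monotone paths -/
theorem short_path {K : ℕ} (hK : P.TableauLE wt K) {v₀ : Fin n → ℝ} (hv : P.Vertex v₀) :
    ∃ (k : ℕ) (p : ℕ → Fin n → ℝ), k ≤ pivotBound m n K ∧ p 0 = v₀ ∧
      (∀ i < k, P.Improving (p i) (p (i + 1))) ∧ P.Final (p k) := by
  obtain ⟨r, hr⟩ := P.exists_tight hv
  obtain ⟨N, hN1, hN2, hN3⟩ := P.random_all hw hK hv hr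
  have hbox : ∀ᵐ κ ∂(volume.restrict (Set.Icc (0 : Fin n → ℝ) 1)),
      ∃ (k : ℕ) (p : ℕ → Fin n → ℝ), k ≤ N κ ∧ p 0 = v₀ ∧
        (∀ i < k, P.Improving (p i) (p (i + 1))) ∧ P.Final (p k) := by
    rw [ae_restrict_iff' measurableSet_Icc]
    filter_upwards [hN3] with κ hκ hb
    obtain ⟨k, p, h1, h2, h3, h4, -⟩ := hκ hb
    exact ⟨k, p, h1, h2, h3.pivot, h4⟩
  have hmeas : AEMeasurable (fun κ => (N κ : ENNReal))
      (volume.restrict (Set.Icc (0 : Fin n → ℝ) 1)) :=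
    (measurable_from_nat.comp hN1).aemeasurable
  obtain ⟨κ, hκ1, hκ2⟩ := exists_notMem_null_le_lintegral hmeas (ae_iff.1 hbox)
  obtain ⟨k, p, h1, h2, h3, h4⟩ := not_not.1 hκ1
  refine ⟨k, p, h1.trans ?_, h2, h3, h4⟩
  have := hκ2.trans hN2
  exact_mod_cast this

end LP

end Pool.Agent.Simplex.Tableau
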