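import Mathlib
import Pool.Agent.Lib.MP_4d246d_lc.CI.LP

/-! Special cases: subdeterminants, two variables per inequality, and the distance property. -/

namespace Pool.Agent.Simplex.Tableau

open Matrix CI

variable {m n : ℕ}

/-- Cramer's rule -/
theorem tableau_of_minors (P : LP m n) {K : ℕ} (h : MinorRatioLE P.A K) :
    P.TableauLE (fun _ => 1) K := by
  intro x _ r hr l α hα k
  have hdet : (P.A.submatrix r id).det ≠ 0 := by
    have h1 : IsUnit (P.A.submatrix r id) := Matrix.linearIndependent_rows_iff_isUnit.mp hr.1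
    exact ((Matrix.isUnit_iff_isUnit_det _).1 h1).ne_zero
  have h1 := h (Function.update r k l) r hdet
  have h2 : P.A.submatrix (Function.update r k l) id =
      (P.A.submatrix r id).updateRow k (∑ i, α i • (P.A.submatrix r id) i) := by
    ext i j
    by_cases hi : i = k
    · subst hi
      simp [Finset.sum_apply, hα j]
    · simp [hi]
  rw [h2, Matrix.det_updateRow_sum, smul_eq_mul, abs_mul] at h1
  rw [one_mul, mul_one]
  exact le_of_mul_le_mul_right h1 (abs_pos.2 hdet)

/-- a row with at most two entries `±1` -/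
theorem TwoUnit.row {A : Matrix (Fin m) (Fin n) ℝ} (h : TwoUnit A) (i : Fin m) :
    (∀ x : Fin n → ℝ, ∑ j, A i j * x j = 0) ∨
    (∃ (j : Fin n) (s : ℝ), |s| = 1 ∧ ∀ x : Fin n → ℝ, ∑ j, A i j * x j = s * x j) ∨
    ∃ (j₁ j₂ : Fin n) (s₁ s₂ : ℝ), |s₁| = 1 ∧ |s₂| = 1 ∧
      ∀ x : Fin n → ℝ, ∑ j, A i j * x j = s₁ * x j₁ + s₂ * x j₂ := by
  classical
  obtain ⟨h1, h2⟩ := h i
  have habs : ∀ j, A i j ≠ 0 → |A i j| = 1 := by
    intro j hj
    rcases h1 j with h3 | h3 | h3
    · exact absurd h3 hj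
    · rw [h3]; simp
    · rw [h3]; simp
  set S := Finset.univ.filter fun j => A i j ≠ 0 with hS
  have hcard : S.card ≤ 2 := by
    have : {j | A i j ≠ 0} = (S : Set (Fin n)) := by ext j; simp [hS]
    rw [this, Set.ncard_coe_finset] at h2
    exact h2
  have hsum : ∀ x : Fin n → ℝ, ∑ j, A i j * x j = ∑ j ∈ S, A i j * x j := by
    intro x
    rw [hS, Finset.sum_filter]
    refine Finset.sum_congr rfl fun j _ => ?_
    by_cases hj : A i j = 0 <;> simp [hj]
  have hmem : ∀ j ∈ S, A i j ≠ 0 := fun j hj => (Finset.mem_filter.1 hj).2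
  interval_cases hc : S.card
  · left
    intro x
    rw [hsum, Finset.card_eq_zero.1 hc, Finset.sum_empty]
  · right; left
    obtain ⟨j, hj⟩ := Finset.card_eq_one.1 hc
    refine ⟨j, A i j, habs j (hmem j (by rw [hj]; simp)), fun x => ?_⟩
    rw [hsum, hj, Finset.sum_singleton]
  · right; right
    obtain ⟨j₁, j₂, hne, hj⟩ := Finset.card_eq_two.1 hc
    refine ⟨j₁, j₂, A i j₁, A i j₂, habs _ (hmem _ (by rw [hj]; simp)),
      habs _ (hmem _ (by rw [hj]; simp)), fun x => ?_⟩
    rw [hsum, hj, Finset.sum_pair hne]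

/-- the changes of the constraints along an elementary vector are `0`, `± t`, `± 2 t` -/
theorem TwoUnit.imbalance {A : Matrix (Fin m) (Fin n) ℝ} (h : TwoUnit A) {z : Fin n → ℝ}
    (hz0 : z ≠ 0) (hz : ∀ q : Fin n → ℝ, (∀ l, ∑ j, A l j * z j = 0 → ∑ j, A l j * q j = 0) →
      ∃ t : ℝ, q = t • z) (l i : Fin m) (hi : ∑ j, A i j * z j ≠ 0) :
    |∑ j, A l j * z j| ≤ 2 * |∑ j, A i j * z j| := by
  classical
  obtain ⟨j0, hj0⟩ : ∃ j, z j ≠ 0 := Function.ne_iff.1 hz0
  set t : ℝ := |z j0| with ht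
  have htpos : 0 < t := abs_pos.2 hj0
  set q : Fin n → ℝ := fun j => if |z j| = t then z j else 0 with hq
  -- `q` satisfies the same equations
  have hqz : ∃ r : ℝ, q = r • z := by
    apply hz
    intro l hl
    rcases h.row l with h1 | ⟨j, s, hs, h1⟩ | ⟨j₁, j₂, s₁, s₂, hs₁, hs₂, h1⟩
    · exact h1 q
    · rw [h1] at hl ⊢
      have hs0 : s ≠ 0 := by rintro rfl; simp at hs
      have hzj : z j = 0 := (mul_eq_zero.1 hl).resolve_left hs0
      simp [hq, hzj]
    · rw [h1] at hl ⊢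
      have e : |z j₁| = |z j₂| := by
        have h2 : s₁ * z j₁ = -(s₂ * z j₂) := by linarith
        have h3 : |s₁ * z j₁| = |s₂ * z j₂| := by rw [h2, abs_neg]
        rwa [abs_mul, abs_mul, hs₁, hs₂, one_mul, one_mul] at h3
      by_cases h4 : |z j₁| = t
      · have h5 : |z j₂| = t := by rw [← e]; exact h4
        simp only [hq, h4, h5, if_true]
        exact hl
      · have h5 : ¬ |z j₂| = t := by rw [← e]; exact h4
        simp only [hq, h4, h5, if_false]
        simp
  obtain ⟨r, hr⟩ := hqz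
  have hr1 : r = 1 := by
    have h1 := congrFun hr j0
    simp only [hq, ← ht, if_true, Pi.smul_apply, smul_eq_mul] at h1
    have h2 : (r - 1) * z j0 = 0 := by linarith
    have := (mul_eq_zero.1 h2).resolve_right hj0
    linarith
  have hval : ∀ j, z j = 0 ∨ |z j| = t := by
    intro j
    by_cases h1 : |z j| = t
    · exact Or.inr h1
    · left
      have h2 := congrFun hr j
      simp only [hq, h1, if_false, hr1, one_smul] at h2
      exact h2.symm
  have hle : ∀ j, |z j| ≤ t := by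
    intro j
    rcases hval j with h1 | h1
    · rw [h1, abs_zero]; exact htpos.le
    · exact h1.le
  -- every row changes by `0`, `± t` or `± 2 t`
  have hup : ∀ l, |∑ j, A l j * z j| ≤ 2 * t := by
    intro l
    rcases h.row l with h1 | ⟨j, s, hs, h1⟩ | ⟨j₁, j₂, s₁, s₂, hs₁, hs₂, h1⟩
    · rw [h1, abs_zero]; positivity
    · rw [h1, abs_mul, hs, one_mul]
      have := hle j
      linarith
    · rw [h1]
      refine (abs_add_le _ _).trans ?_
      rw [abs_mul, abs_mul, hs₁, hs₂, one_mul, one_mul]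
      have := hle j₁
      have := hle j₂
      linarith
  have hlow : ∀ l, ∑ j, A l j * z j ≠ 0 → t ≤ |∑ j, A l j * z j| := by
    intro l hl
    rcases h.row l with h1 | ⟨j, s, hs, h1⟩ | ⟨j₁, j₂, s₁, s₂, hs₁, hs₂, h1⟩
    · exact absurd (h1 z) hl
    · rw [h1] at hl ⊢
      rw [abs_mul, hs, one_mul]
      rcases hval j with h2 | h2
      · rw [h2, mul_zero] at hl; exact absurd rfl hl
      · exact h2.ge
    · rw [h1] at hl ⊢
      rcases hval j₁ with h2 | h2
      · rw [h2, mul_zero, zero_add] at hl ⊢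
        rw [abs_mul, hs₂, one_mul]
        rcases hval j₂ with h3 | h3
        · rw [h3, mul_zero] at hl; exact absurd rfl hl
        · exact h3.ge
      · rcases hval j₂ with h3 | h3
        · rw [h3, mul_zero, add_zero, abs_mul, hs₁, one_mul]
          exact h2.ge
        · have e1 : |s₁ * z j₁| = t := by rw [abs_mul, hs₁, one_mul, h2]
          have e2 : |s₂ * z j₂| = t := by rw [abs_mul, hs₂, one_mul, h3]
          rcases eq_or_eq_neg_of_abs_eq e1 with a1 | a1 <;>
            rcases eq_or_eq_neg_of_abs_eq e2 with a2 | a2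
          · rw [a1, a2, abs_of_pos (by linarith)]; linarith
          · exfalso; apply hl; rw [a1, a2]; ring
          · exfalso; apply hl; rw [a1, a2]; ring
          · rw [a1, a2, abs_of_neg (by linarith)]; linarith
  have h1 := hup l
  have h2 := hlow i hi
  linarith

/-- the coefficients over a tight basis are the products with the dual vectors -/
theorem coeff_dual {P : LP m n} {x : Fin n → ℝ} {r : Fin n → Fin m} (hr : P.TightBasis x r)
    (k : Fin n) : ∃ z : Fin n → ℝ, (∑ j, P.A (r k) j * z j = 1) ∧ z ≠ 0 ∧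
      (∀ q : Fin n → ℝ, (∀ l, ∑ j, P.A l j * z j = 0 → ∑ j, P.A l j * q j = 0) →
        ∃ t : ℝ, q = t • z) ∧
      ∀ (w α : Fin n → ℝ), (∀ j, w j = ∑ i, α i * P.A (r i) j) → α k = ∑ j, w j * z j := by
  obtain ⟨z, hz⟩ := dual_exists (a := P.A) (f := r) hr.1 k
  have hzk : ∑ j, P.A (r k) j * z j = 1 := by
    have := hz k
    rw [Pi.single_eq_same] at this
    exact this
  have hE := dual_elem (a := P.A) (b := P.b) (v := x) (fun k => hr.2 k) hr.1 hz
  refine ⟨z, hzk, hE.1, hE.elem.2, fun w α hα => ?_⟩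
  have h1 : w = ∑ i, α i • P.A (r i) := by
    funext j
    rw [Finset.sum_apply]
    exact hα j
  have h2 : w ⬝ᵥ z = α k := by
    rw [h1, sum_dotProduct, Finset.sum_eq_single k]
    · rw [smul_dotProduct, hz k, Pi.single_eq_same, smul_eq_mul, mul_one]
    · intro i _ hi
      rw [smul_dotProduct, hz i, Pi.single_eq_of_ne hi, smul_zero]
    · intro h; exact absurd (Finset.mem_univ _) h
  exact h2.symm

theorem tableau_of_twoUnit (P : LP m n) (h : TwoUnit P.A) : P.TableauLE (fun _ => 1) 2 := by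
  intro x _ r hr l α hα k
  obtain ⟨z, hzk, hz0, hz, hw⟩ := coeff_dual hr k
  have h1 := h.imbalance hz0 hz l (r k) (by rw [hzk]; exact one_ne_zero)
  rw [hzk, abs_one, mul_one, ← hw _ _ hα] at h1
  rw [one_mul, mul_one]
  exact_mod_cast h1

theorem tableau_of_distance (P : LP m n) {δ : ℝ} (hδ : 0 < δ) (h : P.DistanceGE δ) {K : ℕ}
    (hK : 1 ≤ K * δ) : ∃ wt : Fin m → ℝ, (∀ l, 0 < wt l) ∧ P.TableauLE wt K := by
  classical
  set Q : Fin m → ℝ := fun l => ∑ j, P.A l j ^ 2 with hQ
  have hQ0 : ∀ l, 0 ≤ Q l := fun l => Finset.sum_nonneg fun j _ => sq_nonneg _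
  refine ⟨fun l => if Q l = 0 then 1 else 1 / √(Q l), fun l => ?_, ?_⟩
  · dsimp only
    split_ifs with h1
    · exact one_pos
    · have : 0 < Q l := lt_of_le_of_ne (hQ0 l) (Ne.symm h1)
      positivity
  intro x hx r hr l α hα k
  obtain ⟨z, hzk, hz0, hz, hw⟩ := coeff_dual hr k
  set Z : ℝ := ∑ j, z j ^ 2 with hZ
  have hZpos : 0 < Z := by
    obtain ⟨j, hj⟩ := Function.ne_iff.1 hz0
    have hj' : z j ≠ 0 := hj
    exact Finset.sum_pos' (fun j _ => sq_nonneg _) ⟨j, Finset.mem_univ _, by positivity⟩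
  -- the distance
  have hdist : δ ^ 2 * Q (r k) * Z ≤ 1 := by
    obtain ⟨γ, hγ⟩ := basis_surj (a := P.A) hr.1 z
    have hγ' : ∀ j, z j = ∑ i, γ i * P.A (r i) j := by
      intro j
      have := congrFun hγ j
      rw [Finset.sum_apply] at this
      exact this.symm
    have hγk : γ k = Z := by
      rw [hw z γ hγ', hZ]
      exact Finset.sum_congr rfl fun j _ => (sq (z j)).symm
    have h1 := h x hx r hr k (fun i => γ i / Z) (by rw [hγk, div_self hZpos.ne'])
    have h2 : ∀ j, ∑ i, γ i / Z * P.A (r i) j = z j / Z := by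
      intro j
      rw [hγ' j, Finset.sum_div]
      exact Finset.sum_congr rfl fun i _ => by ring
    simp only [h2, div_pow] at h1
    rw [← Finset.sum_div] at h1
    have h3 : (∑ j, z j ^ 2) / Z ^ 2 = 1 / Z := by
      rw [← hZ]; field_simp
    rw [h3, le_div_iff₀ hZpos] at h1
    exact h1
  have hCS : (α k) ^ 2 ≤ Q l * Z := by
    rw [hw _ _ hα]
    exact Finset.sum_mul_sq_le_sq_mul_sq _ _ _
  have hQk : 0 < Q (r k) := by
    refine lt_of_le_of_ne (hQ0 _) fun h0 => ?_
    have h1 : ∀ j, P.A (r k) j = 0 := by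
      intro j
      have h2 := (Finset.sum_eq_zero_iff_of_nonneg fun j _ => sq_nonneg (P.A (r k) j)).1 h0.symm j
        (Finset.mem_univ j)
      exact pow_eq_zero_iff (two_ne_zero) |>.1 h2
    simp [h1] at hzk
  have hKpos : 0 < (K : ℝ) := by
    by_contra hle
    push Not at hle
    have := mul_nonpos_of_nonpos_of_nonneg hle hδ.le
    linarith
  simp only
  rw [if_neg hQk.ne']
  by_cases hl : Q l = 0
  · rw [hl, zero_mul] at hCS
    have h0 : α k = 0 := by
      have := le_antisymm hCS (sq_nonneg _)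
      exact pow_eq_zero_iff two_ne_zero |>.1 this
    rw [h0, abs_zero, mul_zero]
    positivity
  · rw [if_neg hl]
    have hQl : 0 < Q l := lt_of_le_of_ne (hQ0 l) (Ne.symm hl)
    rw [← abs_of_nonneg (show 0 ≤ 1 / √(Q l) * |α k| by positivity),
      ← abs_of_nonneg (show 0 ≤ (K : ℝ) * (1 / √(Q (r k))) by positivity)]
    rw [← sq_le_sq]
    have e1 : (1 / √(Q l) * |α k|) ^ 2 = (α k) ^ 2 / Q l := by
      rw [mul_pow, div_pow, sq_abs, Real.sq_sqrt hQl.le]; ring
    have e2 : ((K : ℝ) * (1 / √(Q (r k)))) ^ 2 = (K : ℝ) ^ 2 / Q (r k) := by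
      rw [mul_pow, div_pow, Real.sq_sqrt hQk.le]; ring
    rw [e1, e2, div_le_div_iff₀ hQl hQk]
    have h1 : 1 ≤ ((K : ℝ) * δ) ^ 2 := one_le_pow₀ hK
    have h2 : Z * Q (r k) ≤ (K : ℝ) ^ 2 := by
      have h3 : Z * Q (r k) ≤ ((K : ℝ) * δ) ^ 2 * (Z * Q (r k)) :=
        le_mul_of_one_le_left (by positivity) h1
      have h4 : ((K : ℝ) * δ) ^ 2 * (Z * Q (r k)) = (K : ℝ) ^ 2 * (δ ^ 2 * Q (r k) * Z) := by ring
      rw [h4] at h3
      have h5 : (K : ℝ) ^ 2 * (δ ^ 2 * Q (r k) * Z) ≤ (K : ℝ) ^ 2 * 1 :=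
        mul_le_mul_of_nonneg_left hdist (by positivity)
      linarith
    calc (α k) ^ 2 * Q (r k) ≤ (Q l * Z) * Q (r k) := mul_le_mul_of_nonneg_right hCS hQk.le
      _ = (Z * Q (r k)) * Q l := by ring
      _ ≤ (K : ℝ) ^ 2 * Q l := mul_le_mul_of_nonneg_right h2 hQl.le

end Pool.Agent.Simplex.Tableau
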